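import Pool.Agent.H687.K4.Strip

/-! The number of short zeros is odd. -/

set_option autoImplicit false
open Complex Set Topology Metric

namespace Pool.Agent.H687.K4

open Pool.Agent.H763R2 Pool.Agent.H763R2.An Pool.Agent.Y535.PEG
open Pool.Agent.H763R2.Dm (NoSq floor_const)

variable {c q : ℝ → ℂ} {θ : ℝ → ℝ → ℝ} {g : ℤ}

/-- translation of both parameters -/
def tr (n : ℤ) (z : ℝ × ℝ) : ℝ × ℝ := (z.1 + n, z.2 + n)

theorem tr_zero (z : ℝ × ℝ) : tr 0 z = z := by unfold tr; simp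

theorem tr_add (m n : ℤ) (z : ℝ × ℝ) : tr m (tr n z) = tr (m + n) z := by
  unfold tr; ext <;> push_cast <;> ring

/-- the double points -/
def Dp (q : ℝ → ℂ) : Set (ℝ × ℝ) := {z | z.1 < z.2 ∧ z.2 < z.1 + 1 ∧ q z.1 = q z.2}

/-- short zeros -/
def Sh (q : ℝ → ℂ) (ρ : ℝ) : Set (ℝ × ℝ) := {z | z ∈ Zq q ∧ z.2 < z.1 + ρ}

/-- the part over one period -/
def Pd (σ : ℝ) : Set (ℝ × ℝ) := {z | σ ≤ z.1 ∧ z.1 < σ + 1}

theorem Dp_Zq {z : ℝ × ℝ} (h : z ∈ Dp q) : z ∈ Zq q := dbl_mem h.1 h.2.1 h.2.2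

theorem Dp_tr (L : Loop q) (n : ℤ) {z : ℝ × ℝ} (h : z ∈ Dp q) : tr n z ∈ Dp q := by
  obtain ⟨h1, h2, h3⟩ := h
  refine ⟨by unfold tr; simp only; linarith, by unfold tr; simp only; linarith, ?_⟩
  unfold tr
  simp only
  rw [L.per_int, L.per_int, h3]

theorem Sh_tr (L : Loop q) {ρ : ℝ} (n : ℤ) {z : ℝ × ℝ} (h : z ∈ Sh q ρ) : tr n z ∈ Sh q ρ := by
  obtain ⟨h1, h2⟩ := h
  refine ⟨Zq_per L h1 n, by unfold tr; simp only; linarith⟩

theorem Pd_fin (hG : Gen q) (σ : ℝ) : (Zq q ∩ Pd σ).Finite := by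
  refine (hG.fin (|σ| + 1)).subset ?_
  rintro z ⟨h, h1, h2⟩
  refine ⟨h, ?_⟩
  simp only [mem_ofPred_eq]
  rw [abs_le]
  have := neg_abs_le σ
  have := le_abs_self σ
  constructor <;> linarith

/-- independence of the period -/
theorem Sh_base (L : Loop q) (ρ σ τ : ℝ) : (Sh q ρ ∩ Pd σ).ncard = (Sh q ρ ∩ Pd τ).ncard := by
  have := fd tr tr_zero tr_add (Sh q ρ) (fun n a h => Sh_tr L n h) (fun z => z.1) (fun z => z.1)
    (fun n a => rfl) (fun n a => rfl) σ τ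
  exact this

/-- long double points are as many as short ones -/
theorem Dp_long (L : Loop q) {ρ : ℝ} (hρ2 : ρ ≤ 1 / 8)
    (hK : ∀ x y, Kr ρ x y → (x, y) ∉ Zq q) (σ : ℝ) :
    ((Dp q \ Sh q ρ) ∩ Pd σ).ncard = ((Dp q ∩ Sh q ρ) ∩ Pd σ).ncard := by
  have h1 := fd tr tr_zero tr_add (Dp q ∩ Sh q ρ)
    (fun n a h => ⟨Dp_tr L n h.1, Sh_tr L n h.2⟩) (fun z => z.2 - 1) (fun z => z.1)
    (fun n a => by unfold tr; simp only; ring) (fun n a => rfl) σ σ
  have h2 : ((Dp q \ Sh q ρ) ∩ Pd σ).ncard =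
      {a | a ∈ Dp q ∩ Sh q ρ ∧ σ ≤ a.2 - 1 ∧ a.2 - 1 < σ + 1}.ncard := by
    refine Set.ncard_congr (fun z _ => (z.2, z.1 + 1)) ?_ ?_ ?_
    · rintro z ⟨⟨hd, hs⟩, p1, p2⟩
      have hz := Dp_Zq hd
      obtain ⟨d1, d2, d3⟩ := hd
      have hlong : z.1 + 1 - ρ < z.2 := by
        by_contra hc
        push Not at hc
        by_cases h : z.2 < z.1 + ρ
        · exact hs ⟨hz, h⟩
        · push Not at h
          exact hK z.1 z.2 ⟨h, hc⟩ hz
      have hd' : ((z.2, z.1 + 1) : ℝ × ℝ) ∈ Dp q :=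
        ⟨by simp only; linarith, by simp only; linarith, by simp only; rw [L.per, d3]⟩
      refine ⟨⟨hd', Dp_Zq hd', by simp only; linarith⟩, by simp only; linarith,
        by simp only; linarith⟩
    · rintro z w _ _ h
      simp only [Prod.mk.injEq] at h
      exact Prod.ext (by linarith [h.2]) h.1
    · rintro w ⟨⟨hd, hs⟩, p1, p2⟩
      obtain ⟨d1, d2, d3⟩ := hd
      refine ⟨(w.2 - 1, w.1), ⟨⟨⟨by simp only; linarith, by simp only; linarith, ?_⟩, ?_⟩, p1, p2⟩, by simp⟩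
      · simp only
        have := L.per (w.2 - 1)
        rw [sub_add_cancel] at this
        rw [← this, d3]
      · rintro ⟨-, h⟩
        simp only at h
        have := hs.2
        linarith
  rw [h2]
  exact h1

/-- passages and double points -/
theorem Dp_card (hG : Gen q) (F : Finset ℝ) {σ : ℝ}
    (hF : ∀ s ∈ Icc σ (σ + 1), s ∈ F ↔ Ps q s) :
    cnt F (σ + 1) = cnt F σ + ((Dp q ∩ Pd σ).ncard : ℤ) := by
  have h1 : (Dp q ∩ Pd σ).ncard = (F.filter (fun p => σ ≤ p ∧ p < σ + 1)).card := by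
    rw [← Set.ncard_coe_finset]
    refine Set.ncard_congr (fun z _ => z.1) ?_ ?_ ?_
    · rintro z ⟨⟨d1, d2, d3⟩, p1, p2⟩
      rw [Finset.mem_coe, Finset.mem_filter]
      exact ⟨(hF z.1 ⟨p1, p2.le⟩).2 ⟨z.2, d1, d2, d3⟩, p1, p2⟩
    · rintro ⟨x, y⟩ ⟨x', y'⟩ ⟨⟨d1, d2, d3⟩, -, -⟩ ⟨⟨e1, e2, e3⟩, -, -⟩ h
      simp only at h d1 d2 d3 e1 e2 e3
      subst h
      obtain ⟨_, _, _, _, _, _, _, _, _, hfib⟩ := hG.db x y d1 d2 d3
      have key : ∀ n : ℤ, y' ≠ x + n := by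
        intro n hn
        have j1 : (0:ℝ) < n := by linarith
        have j2 : (n:ℝ) < 1 := by linarith
        have j1' : 0 < n := by exact_mod_cast j1
        have j2' : n < 1 := by exact_mod_cast j2
        omega
      rcases hfib y' e3.symm with ⟨n, hn⟩ | ⟨n, hn⟩
      · exact absurd hn (key n)
      · have j1 : (-1:ℝ) < n := by linarith
        have j2 : (n:ℝ) < 1 := by linarith
        have j1' : -1 < n := by exact_mod_cast j1
        have j2' : n < 1 := by exact_mod_cast j2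
        have : n = 0 := by omega
        rw [this] at hn
        simp only [Int.cast_zero, add_zero] at hn
        rw [hn]
    · intro p hp
      rw [Finset.mem_coe, Finset.mem_filter] at hp
      obtain ⟨hp, p1, p2⟩ := hp
      obtain ⟨y, y1, y2, y3⟩ := (hF p ⟨p1, p2.le⟩).1 hp
      exact ⟨(p, y), ⟨⟨y1, y2, y3⟩, p1, p2⟩, rfl⟩
  rw [h1]
  unfold cnt
  have h2 : F.filter (fun p => p < σ + 1) = F.filter (fun p => p < σ) ∪
      F.filter (fun p => σ ≤ p ∧ p < σ + 1) := by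
    ext p
    simp only [Finset.mem_filter, Finset.mem_union]
    constructor
    · rintro ⟨hp, h⟩
      rcases lt_or_ge p σ with h' | h'
      · exact Or.inl ⟨hp, h'⟩
      · exact Or.inr ⟨hp, h', h⟩
    · rintro (⟨hp, h⟩ | ⟨hp, -, h⟩)
      · exact ⟨hp, by linarith⟩
      · exact ⟨hp, h⟩
  rw [h2, Finset.card_union_of_disjoint (by
    rw [Finset.disjoint_filter]
    intro p _ h1 h2
    linarith [h2.1])]
  push_cast
  rfl

theorem short_odd (hG : Gen q) (hP : PLc q) (A : Ang c (mgc c) θ g) (hg : Odd g)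
    {ρ : ℝ} (hρ : 0 < ρ) (hρ2 : ρ ≤ 1 / 8)
    (hcl : ∀ x y, Kr ρ x y → ‖GG q (mgc q) x y - GG c (mgc c) x y‖ < ‖GG c (mgc c) x y‖) :
    (((Sh q ρ ∩ Pd 0).ncard : ℕ) : ZMod 2) = 1 := by
  classical
  have L := hG.L
  have hK : ∀ x y, Kr ρ x y → (x, y) ∉ Zq q := by
    intro x y h hz
    have h0 := (Zq_iff L (mgc_sg L) hz.1).2 hz
    have := hcl x y h
    rw [h0, zero_sub, norm_neg] at this
    exact lt_irrefl _ this
  obtain ⟨η1, hη1, sh0, -⟩ := short hG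
  obtain ⟨θ1, A1⟩ := exLA L hη1 sh0
  have right : ∀ s0, ∃ ρ > 0, ∃ k, ∀ s, s0 < s → s < s0 + ρ → KL θ1 s k := by
    intro s0
    rcases hP s0 with ⟨e, f, w, η, H⟩ | ⟨s1, e, d, η, H⟩
    · obtain ⟨ρ, hρ, k, hk⟩ := H.half L hη1 A1
      exact ⟨ρ, hρ, k, fun s h1 h2 => hk s h1.ne' (by rw [abs_of_pos (by linarith)]; linarith)⟩
    · obtain ⟨ρ, hρ, k, -, hk⟩ := H.half L hη1 A1
      exact ⟨ρ, hρ, k, fun s h1 h2 => hk s h1 (by rw [abs_of_pos (by linarith)]; linarith)⟩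
  obtain ⟨ρ1, hρ1, k0, hk0⟩ := right 0
  obtain ⟨ρ2, hρ2', k1, hk1⟩ := right 1
  obtain ⟨σ, hσ, hσ'⟩ := (Ioo_infinite (show (0:ℝ) < min (min ρ1 ρ2) 1 by positivity)).exists_notMem_finset
    ((hG.fin 3).toFinset.image Prod.fst)
  have hσ0 := hσ.1
  have hσ1 := hσ.2
  simp only [lt_min_iff] at hσ1
  obtain ⟨⟨s1, s2⟩, s3⟩ := hσ1
  have noz : ∀ y, (σ, y) ∉ Zq q := by
    intro y hy
    refine hσ' (Finset.mem_image.2 ⟨(σ, y), ?_, rfl⟩)
    rw [Set.Finite.mem_toFinset]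
    refine ⟨hy, ?_⟩
    simp only [mem_ofPred_eq]
    rw [abs_of_pos hσ0]; linarith
  have noz' : ∀ y, (σ + 1, y) ∉ Zq q := by
    intro y hy
    have := Zq_per L hy (-1)
    push_cast at this
    rw [show σ + 1 + -1 = σ by ring] at this
    exact noz _ this
  have np : ¬ Ps q σ := fun ⟨y, h1, h2, h3⟩ => noz y (dbl_mem h1 h2 h3)
  have np' : ¬ Ps q (σ + 1) := fun ⟨y, h1, h2, h3⟩ => noz' y (dbl_mem h1 h2 h3)
  set F : Finset ℝ := ((hG.fin 3).toFinset.filter (fun z => q z.1 = q z.2)).image Prod.fst with hFd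
  have hF : ∀ s ∈ Icc σ (σ + 1), s ∈ F ↔ Ps q s := by
    intro s hs
    rw [hFd, Finset.mem_image]
    constructor
    · rintro ⟨z, hz, rfl⟩
      rw [Finset.mem_filter, Set.Finite.mem_toFinset] at hz
      exact ⟨z.2, hz.1.1.1.1, hz.1.1.1.2, hz.2⟩
    · rintro ⟨y, h1, h2, h3⟩
      refine ⟨(s, y), ?_, rfl⟩
      rw [Finset.mem_filter, Set.Finite.mem_toFinset]
      refine ⟨⟨dbl_mem h1 h2 h3, ?_⟩, h3⟩
      simp only [mem_ofPred_eq]
      rw [abs_of_pos (by linarith [hs.1])]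
      linarith [hs.2]
  obtain ⟨η0, hη0, hbot⟩ := bot L hP hη1 A1 sh0 F hF np np' (hk0 σ hσ0 (by linarith))
    (hk1 (σ + 1) (by linarith) (by linarith))
  obtain ⟨r, hr, r1, r2, r3⟩ : ∃ r > 0, r < η0 ∧ r < η1 ∧ r < ρ := by
    refine ⟨min (min η0 η1) ρ / 2, by positivity, ?_, ?_, ?_⟩
    · have := (min_le_left (min η0 η1) ρ).trans (min_le_left _ _)
      linarith
    · have := (min_le_left (min η0 η1) ρ).trans (min_le_right _ _)
      linarith
    · have := min_le_right (min η0 η1) ρ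
      linarith
  obtain ⟨n, hn, hcnt⟩ := hbot r hr r1
  have htop := top L A hρ hρ2 hcl σ
  -- the number of double points
  have hDn : n = -(((Dp q ∩ Sh q ρ) ∩ Pd σ).ncard : ℤ) := by
    have h1 := Dp_card hG F hF
    have h2 := Dp_long L hρ2 hK σ
    have fin1 : (Dp q ∩ Pd σ).Finite := (Pd_fin hG σ).subset fun z hz => ⟨Dp_Zq hz.1, hz.2⟩
    have h3 : (Dp q ∩ Pd σ).ncard = ((Dp q \ Sh q ρ) ∩ Pd σ).ncard +
        ((Dp q ∩ Sh q ρ) ∩ Pd σ).ncard := by
      rw [← Set.ncard_union_eq (by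
        rw [Set.disjoint_left]
        rintro z ⟨⟨-, h⟩, -⟩ ⟨⟨-, h'⟩, -⟩
        exact h h') (fin1.subset fun z hz => ⟨hz.1.1, hz.2⟩)
        (fin1.subset fun z hz => ⟨hz.1.1, hz.2⟩)]
      congr 1
      ext z
      simp only [mem_inter_iff, mem_union, mem_sdiff]
      tauto
    rw [h3, h2] at h1
    push_cast at h1
    linarith
  -- the rectangle
  set e : ℝ × ℝ → ℝ × ℝ := fun z => (z.1, z.2 - z.1) with he
  have einj : Function.Injective e := by
    rintro ⟨x, y⟩ ⟨x', y'⟩ h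
    simp only [he, Prod.mk.injEq] at h
    obtain ⟨rfl, h⟩ := h
    rw [sub_left_inj] at h
    rw [h]
  set Z := (hG.fin 3).toFinset.image e with hZ
  have hloc : ∀ z ∈ Z, ∃ r > 0, ∀ s ∈ Icc (-r) r, ∀ t ∈ Icc (-r) r,
      Gs q (z.1 + s) (z.2 + t) = sg (io q (z.1, z.1 + z.2)) * Gs q (z.1 - s) (z.2 - t) := by
    intro z hz
    rw [hZ, Finset.mem_image] at hz
    obtain ⟨w, hw, rfl⟩ := hz
    rw [Set.Finite.mem_toFinset] at hw
    obtain ⟨r, hr, H⟩ := germ_io hG (mgc_sg L) hw.1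
    refine ⟨r / 2, by positivity, fun s hs t ht => ?_⟩
    have := H s ⟨by linarith [hs.1], by linarith [hs.2]⟩ (s + t)
      ⟨by linarith [hs.1, ht.1], by linarith [hs.2, ht.2]⟩
    unfold Gs
    simp only [he]
    rw [show w.1 + s + (w.2 - w.1 + t) = w.2 + (s + t) by ring,
      show w.1 - s + (w.2 - w.1 - t) = w.2 - (s + t) by ring, this]
    rw [show w.1 + (w.2 - w.1) = w.2 by ring]
  have nzr : ∀ x y, r ≤ y → y ≤ ρ → (x, x + y) ∉ Zq q → Gs q x y ≠ 0 := by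
    intro x y h1 h2 h h0
    exact h ((Gs_zero L (by linarith) (by linarith)).1 h0)
  have B : Bd (Gs q) σ (σ + 1) r ρ := by
    refine ⟨by linarith, r3.le, fun x _ => sh0 x (x + r) (by linarith) (by linarith),
      fun x _ => nzr x ρ r3.le le_rfl (hK x (x + ρ) ⟨by linarith, by linarith⟩),
      fun y hy => nzr σ y hy.1 hy.2 (noz _), fun y hy => nzr (σ + 1) y hy.1 hy.2 (noz' _)⟩
  have pW := Wd_sum (Gs_cont L) Z (fun z => io q (z.1, z.1 + z.2)) hloc _ σ (σ + 1) r ρ B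
    (fun x hx y hy h => by
      have := (Gs_zero L (by linarith [hy.1]) (by linarith [hy.2])).1 h
      rw [hZ, Finset.mem_image]
      refine ⟨(x, x + y), ?_, by simp [he]⟩
      rw [Set.Finite.mem_toFinset]
      refine ⟨this, ?_⟩
      simp only [mem_ofPred_eq]
      rw [abs_of_pos (by linarith [hx.1])]
      linarith [hx.2]) rfl
  have hWd : Wd (Gs q) σ (σ + 1) r ρ = dl (fun x => Gs q x r) σ (σ + 1) -
      dl (fun x => Gs q x ρ) σ (σ + 1) := by
    unfold Wd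
    have : (fun y => Gs q (σ + 1) y) = fun y => Gs q σ y := funext fun y => Gs_per L σ y
    rw [this]; ring
  have hsum : ∑ z ∈ Z.filter (InR σ (σ + 1) r ρ), io q (z.1, z.1 + z.2) =
      ((((Sh q ρ \ Dp q) ∩ Pd σ).ncard : ℕ) : ZMod 2) := by
    have h1 : ∀ z : ℝ × ℝ, io q (z.1, z.1 + z.2) = if q z.1 ≠ q (z.1 + z.2) then 1 else 0 := by
      intro z
      unfold io
      by_cases h : q z.1 = q (z.1 + z.2) <;> simp [h]
    simp only [h1]
    rw [Finset.sum_boole]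
    congr 1
    rw [← Set.ncard_coe_finset]
    refine Set.ncard_congr (fun z _ => (z.1, z.1 + z.2)) ?_ ?_ ?_
    · intro z hz
      rw [Finset.mem_coe, Finset.mem_filter, Finset.mem_filter, hZ, Finset.mem_image] at hz
      obtain ⟨⟨⟨w, hw, rfl⟩, ⟨i1, i2⟩, i3, i4⟩, hne⟩ := hz
      rw [Set.Finite.mem_toFinset] at hw
      simp only [he] at i1 i2 i3 i4 hne ⊢
      rw [show w.1 + (w.2 - w.1) = w.2 by ring] at hne ⊢
      exact ⟨⟨⟨hw.1, by simp only; linarith⟩, fun h => hne h.2.2⟩, i1.le, i2⟩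
    · rintro z w _ _ h
      simp only [Prod.mk.injEq] at h
      refine Prod.ext h.1 ?_
      rw [h.1] at h
      linarith [h.2]
    · rintro w ⟨⟨⟨hw, hs⟩, hd⟩, p1, p2⟩
      have h2 := hw.1.1
      have h2' := hw.1.2
      refine ⟨(w.1, w.2 - w.1), ?_, ?_⟩
      · rw [Finset.mem_coe, Finset.mem_filter, Finset.mem_filter, hZ, Finset.mem_image]
        refine ⟨⟨⟨w, ?_, rfl⟩, ⟨?_, p2⟩, ?_, by simp only; linarith⟩, ?_⟩
        · rw [Set.Finite.mem_toFinset]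
          refine ⟨hw, ?_⟩
          simp only [mem_ofPred_eq]
          rw [abs_of_pos (by linarith)]
          linarith
        · refine lt_of_le_of_ne p1 fun h => ?_
          have := noz w.2
          rw [h] at this
          exact this hw
        · simp only
          by_contra hc
          push Not at hc
          exact sh0 w.1 w.2 h2 (by linarith) ((Zq_iff L (mgc_sg L) hw.1).2 hw)
        · simp only
          rw [show w.1 + (w.2 - w.1) = w.2 by ring]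
          exact fun h => hd ⟨h2, h2', h⟩
      · simp
  rw [hsum, hWd, hn, htop] at pW
  have pG : Pw ((g : ℂ) * (2 * Real.pi * I)) (g : ZMod 2) := ⟨g, rfl, rfl⟩
  have pN : Pw ((n : ℂ) * (2 * Real.pi * I)) (n : ZMod 2) := ⟨n, rfl, rfl⟩
  have pS := pG.add pW
  rw [add_sub_cancel] at pS
  have key := pS.unique pN
  have hodd : ((g : ℤ) : ZMod 2) = 1 := by
    obtain ⟨r, rfl⟩ := hg
    push_cast
    have h2 : (2 : ZMod 2) = 0 := by decide
    rw [h2]; ring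
  rw [hodd, hDn] at key
  push_cast at key
  rw [Sh_base L ρ 0 σ]
  have h3 : (Sh q ρ ∩ Pd σ).ncard = ((Sh q ρ \ Dp q) ∩ Pd σ).ncard +
      ((Dp q ∩ Sh q ρ) ∩ Pd σ).ncard := by
    have fin1 : (Sh q ρ ∩ Pd σ).Finite := (Pd_fin hG σ).subset fun z hz => ⟨hz.1.1, hz.2⟩
    rw [← Set.ncard_union_eq (by
      rw [Set.disjoint_left]
      rintro z ⟨⟨-, h⟩, -⟩ ⟨⟨h', -⟩, -⟩
      exact h h') (fin1.subset fun z hz => ⟨hz.1.1, hz.2⟩)
      (fin1.subset fun z hz => ⟨hz.1.2, hz.2⟩)]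
    congr 1
    ext z
    simp only [mem_inter_iff, mem_union, mem_sdiff]
    tauto
  rw [h3]
  push_cast
  have h4 : ∀ a b : ZMod 2, 1 + a = -b → a + b = 1 := by decide
  exact h4 _ _ key

end Pool.Agent.H687.K4
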