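import Pool.Agent.H687.K4.Gr

/-! Generic polygons near the cycles of a topological graph. -/

set_option autoImplicit false
open Complex Set Topology Metric

namespace Pool.Agent.H687.K4

open Pool.Agent.H763R2 Pool.Agent.H763R2.An Pool.Agent.Y535.PEG
open Pool.Agent.H763R2.Dm (NoSq floor_const)

variable {n L M : ℕ} {v : ℤ → Fin n} {ψ : (Fin n → ℝ) → ℂ}

/-- the closed curve of a closed walk -/
noncomputable def cv (ψ : (Fin n → ℝ) → ℂ) (L : ℕ) (v : ℤ → Fin n) (t : ℝ) : ℂ := ψ (ev v (L * t))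

theorem Walk.cv_loop (W : Walk L v) {K : Set (Fin n → ℝ)} (hψ : ContinuousOn ψ K)
    (hK : ∀ s, ev v s ∈ K) : Loop (cv ψ L v) where
  cont := hψ.comp_continuous (ev_cont.comp (by fun_prop)) (fun t => hK _)
  per t := by
    unfold cv
    rw [mul_add, mul_one, W.ev_per]

theorem Walk.cv_inj (W : Walk L v) {K : Set (Fin n → ℝ)} (hψ : InjOn ψ K)
    (hK : ∀ s, ev v s ∈ K) : Inj (cv ψ L v) := by
  intro x y h1 h2 h
  obtain ⟨j, hj⟩ := W.ev_inj (hψ (hK _) (hK _) h)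
  have hL : (0:ℝ) < L := by
    have := W.L3
    have : 0 < L := by omega
    exact_mod_cast this
  rw [← mul_add] at hj
  have h3 := mul_left_cancel₀ hL.ne' hj
  have j1 : (0:ℝ) < j := by linarith
  have j2 : (j:ℝ) < 1 := by linarith
  have j1' : 0 < j := by exact_mod_cast j1
  have j2' : j < 1 := by exact_mod_cast j2
  omega

/-- sequence of lines of a walk -/
def sv (M : ℕ) (v : ℤ → Fin n) (N : ℤ) : Ix n M := ix M (v (N / M)) (v (N / M + 1)) N

theorem Walk.sv_per (W : Walk L v) (hM : 0 < M) (N : ℤ) :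
    sv M v (N + ((L * M : ℕ) : ℤ)) = sv M v N := by
  unfold sv
  have hM' : (M : ℤ) ≠ 0 := by omega
  have h1 : (N + ((L * M : ℕ) : ℤ)) / M = N / M + L := by
    push_cast
    rw [Int.add_mul_ediv_right _ _ hM']
  rw [h1, W.per, show N / (M : ℤ) + L + 1 = N / M + 1 + L by ring, W.per,
    show N + ((L * M : ℕ) : ℤ) = N + M * L by push_cast; ring, ix_per]

theorem Walk.sv_inj (W : Walk L v) (N N' : ℤ) (h : sv M v N = sv M v N') :
    ((L * M : ℕ) : ℤ) ∣ N' - N := by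
  unfold sv at h
  rcases ix_inj h with ⟨h1, -, h3⟩ | ⟨h1, h2⟩
  · obtain ⟨i, hi⟩ := W.inj _ _ h1
    have h4 : N % M = N' % M := (ZMod.intCast_eq_intCast_iff' _ _ _).1 h3
    have e1 := Int.emod_add_mul_ediv N M
    have e2 := Int.emod_add_mul_ediv N' M
    refine ⟨i, ?_⟩
    have : N' - N = M * (N' / M - N / M) := by
      rw [mul_sub]; linarith
    rw [this, hi]; push_cast; ring
  · exfalso
    have d1 := W.inj _ _ h1
    have d2 := W.inj _ _ h2
    have d3 := dvd_sub d1 d2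
    rw [show N' / (M : ℤ) + 1 - N / M - (N' / M - (N / M + 1)) = 2 by ring] at d3
    exact not_dvd W.L3 (i := 2) (by norm_num) (by norm_num) (by norm_num) d3

theorem val_lo {j : ℤ} (h0 : 0 ≤ j) (h1 : j < M) : (((j : ZMod M).val : ℕ) : ℤ) = j := by
  have : NeZero M := ⟨by omega⟩
  rw [ZMod.val_intCast, Int.emod_eq_of_lt h0 h1]

theorem val_hi {j : ℤ} (h0 : 0 ≤ j) (h1 : j < M) :
    ((((-1 - j : ℤ) : ZMod M).val : ℕ) : ℤ) = M - 1 - j := by
  have : NeZero M := ⟨by omega⟩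
  rw [ZMod.val_intCast]
  have h2 : (-1 - j) % (M : ℤ) = (M - 1 - j) % M := by
    rw [show (M : ℤ) - 1 - j = -1 - j + M by ring, Int.add_emod_right]
  rw [h2, Int.emod_eq_of_lt (by omega) (by omega)]

/-- base points -/
noncomputable def p0 (ψ : (Fin n → ℝ) → ℂ) (z : Ix n M) : ℂ :=
  ψ (ep z.1 z.2.1 ((z.2.2.val : ℝ) / ((M : ℝ) - 1)))

theorem p0_ix {a b : Fin n} (hM : 2 ≤ M) {j : ℤ} (h0 : 0 ≤ j) (h1 : j < M) :
    p0 ψ (ix M a b j) = ψ (ep a b ((j : ℝ) / ((M : ℝ) - 1))) := by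
  have hM1 : (0:ℝ) < (M:ℝ) - 1 := by
    have : (2:ℝ) ≤ M := by exact_mod_cast hM
    linarith
  unfold p0 ix
  split_ifs with h
  · have := val_lo h0 h1
    have h2 : (((j : ZMod M).val : ℕ) : ℝ) = j := by exact_mod_cast this
    simp only
    rw [h2]
  · have := val_hi h0 h1
    have h2 : ((((-1 - j : ℤ) : ZMod M).val : ℕ) : ℝ) = M - 1 - j := by exact_mod_cast this
    simp only
    rw [h2, ep_symm]
    congr 2
    field_simp
    ring

theorem sl_step {a b : Fin n} {j : ℤ} (h0 : 0 < j) (h1 : j < M) :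
    sl (ix M a b (j - 1)) ≠ sl (ix M a b j) := by
  unfold ix
  split_ifs with h
  · intro hs
    have h2 := (sl_inj hs).2.2
    have h3 := val_lo (M := M) (j := j) h0.le h1
    have h4 := val_lo (M := M) (j := j - 1) (by omega) (by omega)
    omega
  · intro hs
    have h2 := (sl_inj hs).2.2
    have h3 := val_hi (M := M) (j := j) h0.le h1
    have h4 := val_hi (M := M) (j := j - 1) (by omega) (by omega)
    omega

theorem sl_edge {a b a' b' : Fin n} {i j : ℤ} (h : sl (ix M a b i) = sl (ix M a' b' j)) :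
    (a = a' ∧ b = b') ∨ (a = b' ∧ b = a') := by
  unfold ix at h
  split_ifs at h with h1 h2 h2
  · exact Or.inl ⟨(sl_inj h).1, (sl_inj h).2.1⟩
  · exact Or.inr ⟨(sl_inj h).1, (sl_inj h).2.1⟩
  · exact Or.inr ⟨(sl_inj h).2.1, (sl_inj h).1⟩
  · exact Or.inl ⟨(sl_inj h).2.1, (sl_inj h).1⟩

theorem div_lo {k j : ℤ} (h0 : 0 ≤ j) (h1 : j < M) : (k * M + j) / (M : ℤ) = k := by
  rw [add_comm, Int.add_mul_ediv_right _ _ (by omega), Int.ediv_eq_zero_of_lt h0 h1, zero_add]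

theorem sv_at {k j : ℤ} (h0 : 0 ≤ j) (h1 : j < M) :
    sv M v (k * M + j) = ix M (v k) (v (k + 1)) j := by
  unfold sv
  rw [div_lo h0 h1, show k * (M:ℤ) + j = j + M * k by ring, ix_per]

theorem exkj (hM : 0 < M) (N : ℤ) : ∃ k j : ℤ, 0 ≤ j ∧ j < M ∧ N = k * M + j :=
  ⟨N / M, N % M, Int.emod_nonneg _ (by omega), Int.emod_lt_of_pos _ (by omega), by
    have := Int.emod_add_mul_ediv N M
    linarith⟩

theorem Walk.sv_sl (W : Walk L v) (hM : 2 ≤ M) (N : ℤ) : sl (sv M v (N - 1)) ≠ sl (sv M v N) := by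
  obtain ⟨k, j, h0, h1, rfl⟩ := exkj (M := M) (by omega) N
  rcases lt_or_eq_of_le h0 with h | h
  · rw [add_sub_assoc, sv_at (by omega) (by omega), sv_at h0 h1]
    exact sl_step h h1
  · subst h
    rw [show k * (M:ℤ) + 0 - 1 = (k - 1) * M + (M - 1) by ring,
      sv_at (j := (M:ℤ) - 1) (by omega) (by omega), sv_at le_rfl h1, sub_add_cancel]
    intro hs
    rcases sl_edge hs with ⟨h2, -⟩ | ⟨h2, -⟩
    · have := W.ne1 (k - 1)
      rw [sub_add_cancel] at this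
      exact this h2
    · exact W.ne2 k h2

/-- parameter of the base point of a line -/
noncomputable def tau (L M : ℕ) (N : ℤ) : ℝ :=
  (((N / (M:ℤ) : ℤ) : ℝ) + ((N % (M:ℤ) : ℤ) : ℝ) / ((M:ℝ) - 1)) / L

theorem Walk.p0_sv (W : Walk L v) (hM : 2 ≤ M) (N : ℤ) :
    p0 ψ (sv M v N) = cv ψ L v (tau L M N) := by
  have hL : (L:ℝ) ≠ 0 := by
    have := W.L3
    have : L ≠ 0 := by omega
    exact_mod_cast this
  have h2 : (2:ℝ) ≤ M := by exact_mod_cast hM
  have hM1 : (0:ℝ) < (M:ℝ) - 1 := by linarith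
  have h0 : 0 ≤ N % (M:ℤ) := Int.emod_nonneg _ (by omega)
  have h1 : N % (M:ℤ) < M := Int.emod_lt_of_pos _ (by omega)
  have e : N = N / M * M + N % M := by
    have := Int.emod_add_mul_ediv N M
    linarith
  have h3 : sv M v N = ix M (v (N / M)) (v (N / M + 1)) (N % M) := by
    conv_lhs => rw [e]
    exact sv_at h0 h1
  rw [h3, p0_ix hM h0 h1]
  unfold cv tau
  rw [mul_div_cancel₀ _ hL, ev_on]
  · have : (0:ℝ) ≤ ((N % (M:ℤ) : ℤ) : ℝ) := by exact_mod_cast h0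
    positivity
  · rw [div_le_one hM1]
    have : N % (M:ℤ) ≤ M - 1 := by omega
    have : ((N % (M:ℤ) : ℤ) : ℝ) ≤ ((M - 1 : ℤ) : ℝ) := by exact_mod_cast this
    push_cast at this
    exact_mod_cast this

theorem tau_bd (hL : 0 < L) (hM : 2 ≤ M) (N : ℤ) : (N:ℝ) / ((L * M : ℕ) : ℝ) ≤ tau L M N ∧
    tau L M N ≤ ((N:ℝ) + 1) / ((L * M : ℕ) : ℝ) := by
  have hL0 : (0:ℝ) < L := by exact_mod_cast hL
  have h2 : (2:ℝ) ≤ M := by exact_mod_cast hM
  have hM1 : (0:ℝ) < (M:ℝ) - 1 := by linarith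
  have hM0 : (0:ℝ) < (M:ℝ) := by linarith
  have h0 : 0 ≤ N % (M:ℤ) := Int.emod_nonneg _ (by omega)
  have h1 : N % (M:ℤ) < M := Int.emod_lt_of_pos _ (by omega)
  have e : (N:ℝ) = ((N / (M:ℤ) : ℤ) : ℝ) * M + ((N % (M:ℤ) : ℤ) : ℝ) := by
    have := Int.emod_add_mul_ediv N M
    have h3 : N = N / M * M + N % M := by linarith
    exact_mod_cast h3
  have j0 : (0:ℝ) ≤ ((N % (M:ℤ) : ℤ) : ℝ) := by exact_mod_cast h0
  have j1 : ((N % (M:ℤ) : ℤ) : ℝ) ≤ (M:ℝ) - 1 := by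
    have : N % (M:ℤ) ≤ M - 1 := by omega
    have h4 : ((N % (M:ℤ) : ℤ) : ℝ) ≤ ((M - 1 : ℤ) : ℝ) := by exact_mod_cast this
    push_cast at h4
    exact_mod_cast h4
  unfold tau
  push_cast at e j0 j1 ⊢
  set k := (((N / (M:ℤ) : ℤ)) : ℝ)
  set j := ((N % (M:ℤ) : ℤ) : ℝ)
  have e1 : (N:ℝ) / (L * M) = (k + j / M) / L := by
    rw [e]; field_simp
  have e2 : ((N:ℝ) + 1) / (L * M) = (k + (j + 1) / M) / L := by
    rw [e]; field_simp
    ring
  rw [e1, e2]
  constructor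
  · apply div_le_div_of_nonneg_right _ hL0.le
    have : j / M ≤ j / ((M:ℝ) - 1) := by gcongr; linarith
    linarith
  · apply div_le_div_of_nonneg_right _ hL0.le
    have : j / ((M:ℝ) - 1) ≤ (j + 1) / M := by
      rw [div_le_div_iff₀ hM1 hM0]; nlinarith
    linarith

/-- the polygon of a walk -/
noncomputable def qv (M L : ℕ) (v : ℤ → Fin n) (d : Ix n M → ℂ) (k : Ix n M → ℝ) : ℝ → ℂ :=
  qq (d ∘ sC (L * M) (sv M v)) (k ∘ sC (L * M) (sv M v))

theorem Walk.Gl (W : Walk L v) (hM : 2 ≤ M) {d : Ix n M → ℂ} {k : Ix n M → ℝ} (G : Gf d k) :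
    Gl (d ∘ sC (L * M) (sv M v)) (k ∘ sC (L * M) (sv M v)) := by
  have h3 := W.L3
  have h4 : 3 ≤ L * M := by nlinarith
  have : NeZero (L * M) := ⟨by omega⟩
  exact G.gl h4 (sC_inj (W.sv_per (by omega)) W.sv_inj)

theorem Walk.gen (W : Walk L v) (hM : 2 ≤ M) {d : Ix n M → ℂ} {k : Ix n M → ℝ} (G : Gf d k) :
    Gen (qv M L v d k) ∧ PLc (qv M L v d k) := ⟨(W.Gl hM G).gen, Gen_PLc (W.Gl hM G)⟩

theorem Walk.close (W : Walk L v) (hM : 2 ≤ M) {d : Ix n M → ℂ} {κ : Ix n M → ℝ} {ε ε' ε'' : ℝ}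
    (hcl : ∀ i j, An.cr (d0 i) (d0 j) ≠ 0 → ‖Xl (d i) (d j) (κ i) (κ j) -
      Xl (d0 i) (d0 j) (An.cr (d0 i) (p0 ψ i)) (An.cr (d0 j) (p0 ψ j))‖ < ε'')
    (hf : ∀ s t : ℝ, |s - t| ≤ 2 / ((L * M : ℕ) : ℝ) → ‖cv ψ L v s - cv ψ L v t‖ < ε')
    (hε : ((1 + 2 * n * n) * (1 + 2 * n * n) + 1) * ε' + ε'' ≤ ε) (t : ℝ) :
    ‖qv M L v d κ t - cv ψ L v t‖ ≤ ε := by
  have h3 := W.L3
  have h4 : 0 < L * M := by positivity
  have : NeZero (L * M) := ⟨by omega⟩
  have hm0 : (0:ℝ) < ((L * M : ℕ) : ℝ) := by exact_mod_cast h4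
  refine near_poly h4 (fun N t ht => ?_) t
  have hV : Vx (d ∘ sC (L * M) (sv M v)) (κ ∘ sC (L * M) (sv M v)) N = Vp d κ (sv M v) N := by
    unfold Vx Vp
    simp only [Function.comp_apply, sC_cast (W.sv_per (show 0 < M by omega))]
  rw [hV]
  have hs := W.sv_sl hM N
  have hcr := cr_ge hs
  have hne : An.cr (d0 (sv M v (N - 1))) (d0 (sv M v N)) ≠ 0 := by
    intro h'; rw [h', abs_zero] at hcr; linarith
  have g1 := hcl _ _ hne
  have g2 := Xl_near' (P1 := p0 ψ (sv M v (N - 1))) (P2 := p0 ψ (sv M v N))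
    (norm_d0 (sv M v (N - 1))) (norm_d0 (sv M v N)) hcr
  rw [W.p0_sv hM, W.p0_sv hM] at g1 g2
  have b1 := tau_bd (L := L) (by omega) hM N
  have b2 := tau_bd (L := L) (by omega) hM (N - 1)
  rw [abs_le] at ht
  set m := ((L * M : ℕ) : ℝ)
  have q1 : ((N - 1 : ℤ) : ℝ) / m = (N:ℝ) / m - 1 / m := by push_cast; rw [sub_div]
  have q2 : (((N - 1 : ℤ) : ℝ) + 1) / m = (N:ℝ) / m := by push_cast; rw [sub_add_cancel]
  have q3 : ((N:ℝ) + 1) / m = (N:ℝ) / m + 1 / m := by rw [add_div]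
  have q4 : (2:ℝ) / m = 1 / m + 1 / m := by ring
  rw [q1, q2] at b2
  rw [q3] at b1
  have f1 := hf (tau L M N) (tau L M (N - 1)) (by
    rw [q4, abs_le]; constructor <;> linarith [b1.1, b1.2, b2.1, b2.2])
  have f2 := hf (tau L M (N - 1)) t (by
    rw [q4, abs_le]; constructor <;> linarith [b2.1, b2.2, ht.1, ht.2])
  have e : Vp d κ (sv M v) N - cv ψ L v t =
      (Vp d κ (sv M v) N - Xl (d0 (sv M v (N - 1))) (d0 (sv M v N))
        (An.cr (d0 (sv M v (N - 1))) (cv ψ L v (tau L M (N - 1))))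
        (An.cr (d0 (sv M v N)) (cv ψ L v (tau L M N)))) +
      (Xl (d0 (sv M v (N - 1))) (d0 (sv M v N))
        (An.cr (d0 (sv M v (N - 1))) (cv ψ L v (tau L M (N - 1))))
        (An.cr (d0 (sv M v N)) (cv ψ L v (tau L M N))) - cv ψ L v (tau L M (N - 1))) +
      (cv ψ L v (tau L M (N - 1)) - cv ψ L v t) := by ring
  rw [e]
  refine (norm_add₃_le).trans ?_
  have g3 : (1 + 2 * (n:ℝ) * n) * (1 + 2 * n * n) *
      ‖cv ψ L v (tau L M N) - cv ψ L v (tau L M (N - 1))‖ ≤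
      (1 + 2 * (n:ℝ) * n) * (1 + 2 * n * n) * ε' :=
    mul_le_mul_of_nonneg_left f1.le (by positivity)
  have g4 : ‖Vp d κ (sv M v) N - Xl (d0 (sv M v (N - 1))) (d0 (sv M v N))
        (An.cr (d0 (sv M v (N - 1))) (cv ψ L v (tau L M (N - 1))))
        (An.cr (d0 (sv M v N)) (cv ψ L v (tau L M N)))‖ < ε'' := g1
  linarith

/-- lines around a vertex -/
def sc (M : ℕ) (a b c : Fin n) (j : ℤ) : Ix n M := if j < 0 then ix M a b j else ix M b c j

theorem sc_symm {a b c : Fin n} (h1 : a ≠ b) (h2 : b ≠ c) (j : ℤ) :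
    sc M c b a j = sc M a b c (-1 - j) := by
  unfold sc
  by_cases hj : j < 0
  · rw [if_pos hj, if_neg (by omega), ix_symm h2]
  · rw [if_neg hj, if_pos (by omega), ix_symm h1]

theorem sc_sv {k j : ℤ} (h0 : -(M:ℤ) ≤ j) (h1 : j < M) :
    sc M (v (k - 1)) (v k) (v (k + 1)) j = sv M v (j + k * M) := by
  unfold sc
  by_cases hj : j < 0
  · rw [if_pos hj, show j + k * (M:ℤ) = (k - 1) * M + (j + M) by ring,
      sv_at (by omega) (by omega), sub_add_cancel]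
    have := ix_per (M := M) (a := v (k - 1)) (b := v k) j 1
    rw [mul_one] at this
    rw [this]
  · rw [if_neg hj, show j + k * (M:ℤ) = k * M + j by ring, sv_at (by omega) h1]

theorem Walk.qv_PP (W : Walk L v) (hM : 0 < M) (d : Ix n M → ℂ) (κ : Ix n M → ℝ) (t : ℝ) :
    qv M L v d κ t = PP d κ (sv M v) (((L * M : ℕ) : ℝ) * t) := by
  have h3 := W.L3
  have h4 : 0 < L * M := by positivity
  have : NeZero (L * M) := ⟨by omega⟩
  unfold qv qq
  rw [pp_PP (W.sv_per hM)]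

theorem img_aff {α β a b : ℝ} (hα : 0 < α) :
    (fun t => α * t - β) '' Icc a b = Icc (α * a - β) (α * b - β) := by
  have : (fun t => α * t - β) = (fun t => t + -β) ∘ fun t => α * t := by
    funext t; simp [sub_eq_add_neg]
  rw [this, Set.image_comp, Set.image_mul_left_Icc' hα, Set.image_add_const_Icc]
  simp [sub_eq_add_neg]

theorem aff_mono {α β : ℝ} (hα : 0 < α) : StrictMono fun t => α * t - β := fun x y h => by
  simp only
  have := mul_lt_mul_of_pos_left h hα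
  linarith

theorem Walk.win_c (W : Walk L v) (hM : 5 ≤ M) (d : Ix n M → ℂ) (κ : Ix n M → ℝ) (k : ℤ) :
    Nw (qv M L v d κ) (Icc (((k:ℝ) - 3 / 4) / L) (((k:ℝ) + 3 / 4) / L)) =
      Nw (PP d κ (sc M (v (k - 1)) (v k) (v (k + 1)))) (Icc (-(3 * M / 4)) (3 * M / 4)) ∧
    Nx (qv M L v d κ) (Icc (((k:ℝ) - 3 / 4) / L) (((k:ℝ) + 3 / 4) / L)) =
      Nx (PP d κ (sc M (v (k - 1)) (v k) (v (k + 1)))) (Icc (-(3 * M / 4)) (3 * M / 4)) := by
  have h3 := W.L3
  have hL0 : (0:ℝ) < L := by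
    have : 0 < L := by omega
    exact_mod_cast this
  have hM5 : (5:ℝ) ≤ M := by exact_mod_cast hM
  have h4 : 0 < L * M := by positivity
  have hm0 : (0:ℝ) < ((L * M : ℕ) : ℝ) := by exact_mod_cast h4
  have hcong : ∀ t ∈ Icc (((k:ℝ) - 3 / 4) / L) (((k:ℝ) + 3 / 4) / L),
      PP d κ (sc M (v (k - 1)) (v k) (v (k + 1))) (((L * M : ℕ) : ℝ) * t - k * M) =
        qv M L v d κ t := by
    intro t ht
    rw [W.qv_PP (by omega)]
    have h1 := ht.1
    have h2 := ht.2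
    rw [div_le_iff₀ hL0] at h1
    rw [le_div_iff₀ hL0] at h2
    have a1 : ((k:ℝ) - 3 / 4) * M ≤ t * L * M := mul_le_mul_of_nonneg_right h1 (by linarith)
    have a2 : t * L * M ≤ ((k:ℝ) + 3 / 4) * M := mul_le_mul_of_nonneg_right h2 (by linarith)
    have := PP_congr (d := d) (k := κ) (σ' := sc M (v (k - 1)) (v k) (v (k + 1))) (σ := sv M v)
      (A := -(M:ℤ) + 1) (B := M - 1) (n0 := k * M)
      (fun N h1 h2 => sc_sv (by omega) (by omega)) (s := ((L * M : ℕ) : ℝ) * t - k * M)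
      (by push_cast; linarith) (by push_cast; linarith)
    rw [this]
    congr 1
    push_cast; ring
  have himg : (fun t => ((L * M : ℕ) : ℝ) * t - k * M) ''
      (Icc (((k:ℝ) - 3 / 4) / L) (((k:ℝ) + 3 / 4) / L)) = Icc (-(3 * (M:ℝ) / 4)) (3 * M / 4) := by
    rw [img_aff hm0]
    congr 1
    · push_cast; field_simp; ring
    · push_cast; field_simp; ring
  rw [← himg]
  exact ⟨(Nw_mono (aff_mono hm0) hcong).symm, (Nx_mono (aff_mono hm0) hcong).symm⟩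

theorem Walk.win_e (W : Walk L v) (hM : 5 ≤ M) (d : Ix n M → ℂ) (κ : Ix n M → ℝ) (k : ℤ) :
    Nw (qv M L v d κ) (Icc (((k:ℝ) + 1 / 4) / L) (((k:ℝ) + 3 / 4) / L)) =
      Nw (PP d κ (ix M (v k) (v (k + 1)))) (Icc (M / 4) (3 * M / 4)) ∧
    Nx (qv M L v d κ) (Icc (((k:ℝ) + 1 / 4) / L) (((k:ℝ) + 3 / 4) / L)) =
      Nx (PP d κ (ix M (v k) (v (k + 1)))) (Icc (M / 4) (3 * M / 4)) := by
  have h3 := W.L3
  have hL0 : (0:ℝ) < L := by
    have : 0 < L := by omega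
    exact_mod_cast this
  have hM5 : (5:ℝ) ≤ M := by exact_mod_cast hM
  have h4 : 0 < L * M := by positivity
  have hm0 : (0:ℝ) < ((L * M : ℕ) : ℝ) := by exact_mod_cast h4
  have hcong : ∀ t ∈ Icc (((k:ℝ) + 1 / 4) / L) (((k:ℝ) + 3 / 4) / L),
      PP d κ (ix M (v k) (v (k + 1))) (((L * M : ℕ) : ℝ) * t - k * M) =
        qv M L v d κ t := by
    intro t ht
    rw [W.qv_PP (by omega)]
    have h1 := ht.1
    have h2 := ht.2
    rw [div_le_iff₀ hL0] at h1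
    rw [le_div_iff₀ hL0] at h2
    have a1 : ((k:ℝ) + 1 / 4) * M ≤ t * L * M := mul_le_mul_of_nonneg_right h1 (by linarith)
    have a2 : t * L * M ≤ ((k:ℝ) + 3 / 4) * M := mul_le_mul_of_nonneg_right h2 (by linarith)
    have := PP_congr (d := d) (k := κ) (σ' := ix M (v k) (v (k + 1))) (σ := sv M v)
      (A := 1) (B := M - 1) (n0 := k * M)
      (fun N h1 h2 => by
        rw [show N + k * (M:ℤ) = k * M + N by ring, sv_at (by omega) (by omega)])
      (s := ((L * M : ℕ) : ℝ) * t - k * M)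
      (by push_cast; linarith) (by push_cast; linarith)
    rw [this]
    congr 1
    push_cast; ring
  have himg : (fun t => ((L * M : ℕ) : ℝ) * t - k * M) ''
      (Icc (((k:ℝ) + 1 / 4) / L) (((k:ℝ) + 3 / 4) / L)) = Icc ((M:ℝ) / 4) (3 * M / 4) := by
    rw [img_aff hm0]
    congr 1
    · push_cast; field_simp; ring
    · push_cast; field_simp; ring
  rw [← himg]
  exact ⟨(Nw_mono (aff_mono hm0) hcong).symm, (Nx_mono (aff_mono hm0) hcong).symm⟩

end Pool.Agent.H687.K4
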