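import Pool.Agent.H687.K4.Win

/-! The short zeros counted in overlapping windows. -/

set_option autoImplicit false
open Complex Set Topology Metric

namespace Pool.Agent.H687.K4

open Pool.Agent.H763R2 Pool.Agent.H763R2.An Pool.Agent.Y535.PEG
open Pool.Agent.H763R2.Dm (NoSq floor_const)

variable {c q Q Q' : ℝ → ℂ}

theorem near_one {u v t s0 a ρ : ℝ} {n m : ℤ} (h1 : t = s0 + n) (h2 : a = s0 + m)
    (hv : v ≤ u + 1 / 2) (ht : t ∈ Icc u v) {y : ℝ} (hy : y ∈ Icc u v) (ha : |a - y| < ρ)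
    (hρ : ρ ≤ 1 / 8) : t = a := by
  rw [abs_lt] at ha
  have j1 : ((n - m : ℤ) : ℝ) < 1 := by push_cast; linarith [ht.1, ht.2, hy.1, hy.2]
  have j2 : (-1 : ℝ) < ((n - m : ℤ) : ℝ) := by push_cast; linarith [ht.1, ht.2, hy.1, hy.2]
  have j3 : n - m < 1 := by exact_mod_cast j1
  have j4 : -1 < n - m := by exact_mod_cast j2
  have : n = m := by omega
  rw [h1, h2, this]

/-- the four parameters of a short zero are close together -/
theorem loc_short (hG : Gen q) {ρ : ℝ} (hρ2 : ρ ≤ 1 / 8)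
    (hK : ∀ x y, Kr ρ x y → (x, y) ∉ Zq q) {z : ℝ × ℝ} (hz : z ∈ Sh q ρ) :
    ∃ lo hi : ℝ, lo ≤ hi ∧ hi - lo < 3 * ρ ∧ ∀ a b, b ≤ a + 1 / 2 →
      (z ∈ ZW q (Icc a b) ↔ a ≤ lo ∧ hi ≤ b) := by
  obtain ⟨x, y⟩ := z
  obtain ⟨⟨⟨h1, h2⟩, hD, hC⟩, hs⟩ := hz
  have L := hG.L
  simp only at h1 h2 hD hC hs
  by_cases he : q x = q y
  · refine ⟨x, y, h1.le, by linarith, fun a b hab => ⟨fun h => ⟨h.1.1, h.2.1.2⟩, fun h => ?_⟩⟩
    have hx : x ∈ Icc a b := ⟨h.1, by linarith [h.2]⟩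
    have e1 : CC q x y = q x := by unfold CC Sq.Cv; rw [he]; ring
    have e2 : DD q x y = q x := by unfold DD Sq.Dv; rw [he]; ring
    refine ⟨hx, ⟨by simp only; linarith [h.1], h.2⟩, h1.ne, ?_, ?_⟩
    · simp only; rw [e1]; exact ⟨x, hx, rfl⟩
    · simp only; rw [e2]; exact ⟨x, hx, rfl⟩
  · obtain ⟨-, -, sC, sD⟩ := hG.sq x y he hD hC
    obtain ⟨tC, hCe, hCn⟩ : ∃ t, q t = CC q x y ∧ |t - y| < ρ := by
      obtain ⟨t, ht, e⟩ := (L.shift y).par01' (by rw [range_shift]; exact hC)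
      have e' : q (t + y) = CC q x y := e
      have hne := rot_ne he e'
      have t0 : t ≠ 0 := by
        rintro rfl; rw [zero_add] at hne; exact hne rfl
      have tp := lt_of_le_of_ne ht.1 t0.symm
      have hm : (y, t + y) ∈ Zq q := by
        refine ⟨⟨by simp only; linarith, by simp only; linarith [ht.2]⟩, ?_, ?_⟩
        · simp only; rw [rot_DD e']; exact mem_range_self x
        · simp only; rw [rot_CC e']; exact hD
      by_cases hsh : t < ρ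
      · exact ⟨t + y, e', by rw [add_sub_cancel_right, abs_of_pos tp]; exact hsh⟩
      · push Not at hsh
        have hlong : 1 - ρ < t := by
          by_contra hc
          push Not at hc
          exact hK y (t + y) ⟨by linarith, by linarith⟩ hm
        refine ⟨t + y - 1, ?_, ?_⟩
        · have := L.per (t + y - 1)
          rw [sub_add_cancel] at this
          rw [← this]; exact e'
        · rw [show t + y - 1 - y = -(1 - t) by ring, abs_neg, abs_of_pos (by linarith [ht.2])]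
          linarith
    obtain ⟨tD, hDe, hDn⟩ : ∃ t, q t = DD q x y ∧ |t - x| < ρ := by
      obtain ⟨t, ht, e⟩ := (L.shift x).par01' (by rw [range_shift]; exact hD)
      have e' : q (t + x) = DD q x y := e
      have hne := tor_ne he e'
      have t0 : t ≠ 0 := by
        rintro rfl; rw [zero_add] at hne; exact hne rfl
      have tp := lt_of_le_of_ne ht.1 t0.symm
      have e2 : q (t + x - 1) = DD q x y := by
        have := L.per (t + x - 1)
        rw [sub_add_cancel] at this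
        rw [← this]; exact e'
      have hm : (t + x - 1, x) ∈ Zq q := by
        refine ⟨⟨by simp only; linarith [ht.2], by simp only; linarith⟩, ?_, ?_⟩
        · simp only; rw [tor_DD e2]; exact hC
        · simp only; rw [tor_CC e2]; exact mem_range_self y
      by_cases hsh : t < ρ
      · exact ⟨t + x, e', by rw [add_sub_cancel_right, abs_of_pos tp]; exact hsh⟩
      · push Not at hsh
        have hlong : 1 - ρ < t := by
          by_contra hc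
          push Not at hc
          exact hK (t + x - 1) x ⟨by linarith, by linarith⟩ hm
        refine ⟨t + x - 1, e2, ?_⟩
        rw [show t + x - 1 - x = -(1 - t) by ring, abs_neg, abs_of_pos (by linarith [ht.2])]
        linarith
    have hCn' := abs_lt.1 hCn
    have hDn' := abs_lt.1 hDn
    refine ⟨min x (min tC tD), max y (max tC tD), ?_, ?_, fun a b hab => ?_⟩
    · exact (min_le_left _ _).trans (h1.le.trans (le_max_left _ _))
    · have a1 : x - ρ < min x (min tC tD) :=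
        lt_min (by linarith) (lt_min (by linarith [hCn'.1]) (by linarith [hDn'.1]))
      have a2 : max y (max tC tD) < x + 2 * ρ :=
        max_lt (by linarith) (max_lt (by linarith [hCn'.2]) (by linarith [hDn'.2]))
      linarith
    · rw [le_min_iff, le_min_iff, max_le_iff, max_le_iff]
      constructor
      · rintro ⟨hx, hy, -, ⟨t, ht, hte⟩, ⟨s, hs', hse⟩⟩
        simp only at hx hy hte hse
        have eC : t = tC := by
          obtain ⟨t0, _, _, _, _, _, _, hf⟩ := sC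
          obtain ⟨n, hn⟩ := hf _ hte
          obtain ⟨m, hm⟩ := hf _ hCe
          exact near_one hn hm hab ht hy hCn hρ2
        have eD : s = tD := by
          obtain ⟨t0, _, _, _, _, _, _, hf⟩ := sD
          obtain ⟨n, hn⟩ := hf _ hse
          obtain ⟨m, hm⟩ := hf _ hDe
          exact near_one hn hm hab hs' hx hDn hρ2
        rw [← eC, ← eD]
        exact ⟨⟨hx.1, ht.1, hs'.1⟩, hy.2, ht.2, hs'.2⟩
      · rintro ⟨⟨b1, b2, b3⟩, b4, b5, b6⟩
        refine ⟨⟨b1, by simp only; linarith⟩, ⟨by simp only; linarith, b4⟩, h1.ne,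
          ⟨tC, ⟨b2, b5⟩, hCe⟩, ⟨tD, ⟨b3, b6⟩, hDe⟩⟩

theorem ncard_fib {α β : Type*} (S : Finset α) (J : α → Finset β) (A : Set (α × β))
    (hA : ∀ a, a ∈ A ↔ a.1 ∈ S ∧ a.2 ∈ J a.1) : A.ncard = ∑ x ∈ S, (J x).card := by
  classical
  rw [← Finset.card_sigma, ← Set.ncard_coe_finset]
  refine Set.ncard_congr (fun a _ => (⟨a.1, a.2⟩ : (_ : α) × β)) ?_ ?_ ?_
  · intro a ha
    rw [Finset.mem_coe, Finset.mem_sigma]
    exact (hA a).1 ha
  · rintro ⟨a, b⟩ ⟨a', b'⟩ _ _ h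
    simp only [Sigma.mk.injEq, heq_eq_eq] at h
    exact Prod.ext h.1 h.2
  · rintro ⟨a, b⟩ h
    rw [Finset.mem_coe, Finset.mem_sigma] at h
    exact ⟨(a, b), (hA (a, b)).2 h, rfl⟩

theorem ncard_fib' {α β : Type*} (S : Finset β) (J : β → Finset α) (A : Set (α × β))
    (hA : ∀ a, a ∈ A ↔ a.2 ∈ S ∧ a.1 ∈ J a.2) : A.ncard = ∑ x ∈ S, (J x).card := by
  rw [← ncard_fib S J (Prod.swap ⁻¹' A) (fun a => hA a.swap)]
  refine Set.ncard_congr (fun a _ => a.swap) ?_ ?_ ?_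
  · intro a ha
    simpa using ha
  · intro a b _ _ h
    exact Prod.swap_injective h
  · intro b hb
    exact ⟨b.swap, hb, by simp⟩

theorem ZW_tr (L : Loop q) (n : ℤ) {a b : ℝ} {z : ℝ × ℝ} (h : z ∈ ZW q (Icc a b)) :
    tr n z ∈ ZW q (Icc (a + n) (b + n)) := by
  have := (ZW_img (Q := q) (Q' := q) (W := Icc a b) (f := fun t => t + n)
    (add_left_injective _) (fun t _ => L.per_int t n) z.1 z.2).2 h
  rw [Set.image_add_const_Icc] at this
  exact this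

/-- double counting -/
theorem dcount (hG : Gen q) {ρ : ℝ} (hρ2 : ρ ≤ 1 / 8)
    (hK : ∀ x y, Kr ρ x y → (x, y) ∉ Zq q) {L : ℕ} (hL : 0 < L) (u v : ℤ → ℝ)
    (hu : ∀ i n, u (i + L * n) = u i + n) (hv : ∀ i n, v (i + L * n) = v i + n)
    (huv : ∀ i, v i ≤ u i + 1 / 2) (J : ℝ × ℝ → Finset ℤ)
    (hJ : ∀ z ∈ Sh q ρ, ∀ i, z ∈ ZW q (Icc (u i) (v i)) ↔ i ∈ J z)
    (hfin : (Sh q ρ ∩ Pd 0).Finite) :
    ∑ z ∈ hfin.toFinset, (J z).card = ∑ i ∈ Finset.Ico (0:ℤ) L, Nw q (Icc (u i) (v i)) := by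
  classical
  have hL0 : (0:ℝ) < L := by exact_mod_cast hL
  have key := fd (α := (ℝ × ℝ) × ℤ) (fun n a => (tr n a.1, a.2 + L * n))
    (fun a => by simp [tr_zero]) (fun m n a => by
      simp only [tr_add]
      refine Prod.ext rfl ?_
      simp only; ring)
    {a | a.1 ∈ Sh q ρ ∧ a.1 ∈ ZW q (Icc (u a.2) (v a.2))}
    (fun n a ha => ⟨Sh_tr hG.L n ha.1, by
      simp only [hu, hv]
      exact ZW_tr hG.L n ha.2⟩) (fun a => a.1.1) (fun a => (a.2 : ℝ) / L)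
    (fun n a => rfl) (fun n a => by
      simp only; push_cast; field_simp) 0 0
  rw [ncard_fib hfin.toFinset J _ (fun a => by
    rw [Set.Finite.mem_toFinset]
    simp only [mem_ofPred_eq]
    constructor
    · rintro ⟨⟨h1, h2⟩, h3, h4⟩
      exact ⟨⟨h1, h3, h4⟩, (hJ _ h1 _).1 h2⟩
    · rintro ⟨⟨h1, h3, h4⟩, h2⟩
      exact ⟨⟨h1, (hJ _ h1 _).2 h2⟩, h3, h4⟩)] at key
  rw [key]
  have hW : ∀ i, (ZW q (Icc (u i) (v i)) ∩ {z | z.1 < z.2}).Finite := fun i =>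
    (ZW_fin hG (by linarith [huv i])).subset Set.inter_subset_left
  rw [ncard_fib' (Finset.Ico (0:ℤ) L) (fun i => (hW i).toFinset) _ (fun a => by
    rw [Set.Finite.mem_toFinset, Finset.mem_Ico]
    simp only [mem_ofPred_eq]
    have e1 : (0 ≤ (a.2 : ℝ) / L ∧ (a.2 : ℝ) / L < 0 + 1) ↔ (0 ≤ a.2 ∧ a.2 < L) := by
      rw [zero_add, div_lt_one hL0, le_div_iff₀ hL0, zero_mul]
      constructor
      · rintro ⟨h1, h2⟩; exact ⟨by exact_mod_cast h1, by exact_mod_cast h2⟩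
      · rintro ⟨h1, h2⟩; exact ⟨by exact_mod_cast h1, by exact_mod_cast h2⟩
    rw [e1]
    constructor
    · rintro ⟨⟨h1, h2⟩, h3⟩
      exact ⟨h3, h2, h1.1.1.1⟩
    · rintro ⟨h3, h2, h1⟩
      simp only [mem_ofPred_eq] at h1
      have hz : a.1 ∈ Zq q := ⟨⟨h1, by linarith [h2.1.1, h2.2.1.2, huv a.2]⟩,
        Set.image_subset_range _ _ h2.2.2.2.2, Set.image_subset_range _ _ h2.2.2.2.1⟩
      refine ⟨⟨⟨hz, ?_⟩, h2⟩, h3⟩
      by_contra hc
      push Not at hc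
      refine hK a.1.1 a.1.2 ⟨hc, ?_⟩ hz
      linarith [h2.1.1, h2.2.1.2, huv a.2])]
  refine Finset.sum_congr rfl fun i _ => ?_
  unfold Nw
  rw [Set.ncard_eq_toFinset_card _ (hW i)]

/-- decomposition of the number of short zeros -/
theorem dec (hG : Gen q) {ρ : ℝ} (hρ2 : ρ ≤ 1 / 8)
    (hK : ∀ x y, Kr ρ x y → (x, y) ∉ Zq q) {L : ℕ} (hL : 3 ≤ L) (hρL : 6 * L * ρ ≤ 1) :
    (((Sh q ρ ∩ Pd 0).ncard : ℕ) : ZMod 2) = ∑ i ∈ Finset.Ico (0:ℤ) L,
      (((Nw q (Icc (((i:ℝ) - 3 / 4) / L) (((i:ℝ) + 3 / 4) / L)) : ℕ) : ZMod 2) +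
       ((Nw q (Icc (((i:ℝ) + 1 / 4) / L) (((i:ℝ) + 3 / 4) / L)) : ℕ) : ZMod 2)) := by
  classical
  have hfin : (Sh q ρ ∩ Pd 0).Finite := (Pd_fin hG 0).subset fun z hz => ⟨hz.1.1, hz.2⟩
  have hL3 : (3:ℝ) ≤ L := by exact_mod_cast hL
  have hL0 : (0:ℝ) < L := by linarith
  have ex : ∀ z : ℝ × ℝ, ∃ p : ℝ × ℝ, z ∈ Sh q ρ → p.1 ≤ p.2 ∧ p.2 - p.1 < 3 * ρ ∧
      ∀ a b, b ≤ a + 1 / 2 → (z ∈ ZW q (Icc a b) ↔ a ≤ p.1 ∧ p.2 ≤ b) := by
    intro z
    by_cases hz : z ∈ Sh q ρ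
    · obtain ⟨lo, hi, h⟩ := loc_short hG hρ2 hK hz
      exact ⟨(lo, hi), fun _ => h⟩
    · exact ⟨(0, 0), fun h => absurd h hz⟩
  choose p hp using ex
  have w1 : ∀ i : ℤ, ((i:ℝ) + 3 / 4) / L ≤ ((i:ℝ) - 3 / 4) / L + 1 / 2 := by
    intro i
    rw [div_add' _ _ _ hL0.ne', div_le_div_iff_of_pos_right hL0]
    linarith
  have w2 : ∀ i : ℤ, ((i:ℝ) + 3 / 4) / L ≤ ((i:ℝ) + 1 / 4) / L + 1 / 2 := by
    intro i
    rw [div_add' _ _ _ hL0.ne', div_le_div_iff_of_pos_right hL0]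
    linarith
  have sh1 : ∀ (a : ℝ) (i n : ℤ), (((i + L * n : ℤ) : ℝ) + a) / L = ((i:ℝ) + a) / L + n := by
    intro a i n
    push_cast
    field_simp
    ring
  have c1 := dcount hG hρ2 hK (L := L) (by omega) (fun i => ((i:ℝ) - 3 / 4) / L)
    (fun i => ((i:ℝ) + 3 / 4) / L) (fun i n => by
      simp only [sub_eq_add_neg]; exact sh1 _ i n) (fun i n => sh1 _ i n) w1
    (fun z => Finset.Icc ⌈(L:ℝ) * (p z).2 - 3 / 4⌉ ⌊(L:ℝ) * (p z).1 + 3 / 4⌋)
    (fun z hz i => by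
      rw [(hp z hz).2.2 _ _ (w1 i), Finset.mem_Icc, Int.ceil_le, Int.le_floor,
        div_le_iff₀ hL0, le_div_iff₀ hL0]
      constructor
      · rintro ⟨h1, h2⟩; constructor <;> linarith
      · rintro ⟨h1, h2⟩; constructor <;> linarith) hfin
  have c2 := dcount hG hρ2 hK (L := L) (by omega) (fun i => ((i:ℝ) + 1 / 4) / L)
    (fun i => ((i:ℝ) + 3 / 4) / L) (fun i n => sh1 _ i n) (fun i n => sh1 _ i n) w2
    (fun z => Finset.Icc ⌈(L:ℝ) * (p z).2 - 3 / 4⌉ (⌊(L:ℝ) * (p z).1 + 3 / 4⌋ - 1))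
    (fun z hz i => by
      rw [(hp z hz).2.2 _ _ (w2 i), Finset.mem_Icc, Int.ceil_le, Int.le_sub_one_iff,
        Int.lt_iff_add_one_le, Int.le_floor, div_le_iff₀ hL0, le_div_iff₀ hL0]
      push_cast
      constructor
      · rintro ⟨h1, h2⟩; constructor <;> linarith
      · rintro ⟨h1, h2⟩; constructor <;> linarith) hfin
  rw [Finset.sum_add_distrib, ← Nat.cast_sum, ← Nat.cast_sum, ← c1, ← c2,
    Set.ncard_eq_toFinset_card _ hfin]
  have h3 : ∀ z ∈ hfin.toFinset,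
      (Finset.Icc ⌈(L:ℝ) * (p z).2 - 3 / 4⌉ ⌊(L:ℝ) * (p z).1 + 3 / 4⌋).card =
      (Finset.Icc ⌈(L:ℝ) * (p z).2 - 3 / 4⌉ (⌊(L:ℝ) * (p z).1 + 3 / 4⌋ - 1)).card + 1 := by
    intro z hz
    rw [Set.Finite.mem_toFinset] at hz
    obtain ⟨h1, h2, -⟩ := hp z hz.1
    have h4 : ⌈(L:ℝ) * (p z).2 - 3 / 4⌉ ≤ ⌊(L:ℝ) * (p z).1 + 3 / 4⌋ := by
      have a1 := Int.ceil_lt_add_one ((L:ℝ) * (p z).2 - 3 / 4)
      have a2 := Int.lt_floor_add_one ((L:ℝ) * (p z).1 + 3 / 4)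
      have a3 : (L:ℝ) * ((p z).2 - (p z).1) ≤ L * (3 * ρ) :=
        mul_le_mul_of_nonneg_left h2.le hL0.le
      have a4 : (⌈(L:ℝ) * (p z).2 - 3 / 4⌉ : ℝ) < ⌊(L:ℝ) * (p z).1 + 3 / 4⌋ + 1 := by nlinarith
      have a5 : ⌈(L:ℝ) * (p z).2 - 3 / 4⌉ < ⌊(L:ℝ) * (p z).1 + 3 / 4⌋ + 1 := by exact_mod_cast a4
      omega
    rw [Int.card_Icc, Int.card_Icc]
    omega
  rw [Finset.sum_congr rfl h3, Finset.sum_add_distrib]
  push_cast
  rw [Finset.sum_const, nsmul_eq_mul, mul_one]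
  have h5 : ∀ a b : ZMod 2, b = a + b + a := by decide
  exact h5 _ _

end Pool.Agent.H687.K4
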