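import Pool.Agent.H687.K4.Cyc

/-! Charges of the corners and edges of a topological graph without inscribed squares. -/

set_option autoImplicit false
open Complex Set Topology Metric

namespace Pool.Agent.H687.K4

open Pool.Agent.H763R2 Pool.Agent.H763R2.An Pool.Agent.Y535.PEG
open Pool.Agent.H763R2.Dm (NoSq floor_const)

variable {n L M : ℕ} {v : ℤ → Fin n} {ψ : (Fin n → ℝ) → ℂ}

theorem Nx_rev {Q Q' : ℝ → ℂ} {c : ℝ} (h : ∀ t, Q' (-t) = Q t) :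
    Nx Q (Icc (-c) c) = Nw Q' (Icc (-c) c) := by
  have := Nw_anti (Q := Q) (Q' := Q') (W := Icc (-c) c) (f := fun t => -t)
    (fun x y h => neg_lt_neg h) (fun t _ => h t)
  rw [Set.image_neg_eq_neg, Set.neg_Icc, neg_neg] at this
  exact this.symm

theorem Nx_rev' {Q Q' : ℝ → ℂ} {a b m : ℝ} (hab : a + b = m) (h : ∀ t, Q' (m - t) = Q t) :
    Nx Q (Icc a b) = Nw Q' (Icc a b) := by
  have := Nw_anti (Q := Q) (Q' := Q') (W := Icc a b) (f := fun t => m - t)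
    (fun x y h => by simp only; linarith) (fun t _ => h t)
  rw [Set.image_const_sub_Icc, show m - b = a by linarith, show m - a = b by linarith] at this
  exact this.symm

/-- charge of a corner -/
noncomputable def Cn (d : Ix n M → ℂ) (κ : Ix n M → ℝ) (a b c : Fin n) : ZMod 2 :=
  ((Nw (PP d κ (sc M a b c)) (Icc (-(3 * M / 4)) (3 * M / 4)) : ℕ) : ZMod 2)

/-- charge of an edge -/
noncomputable def En (d : Ix n M → ℂ) (κ : Ix n M → ℝ) (a b : Fin n) : ZMod 2 :=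
  ((Nw (PP d κ (ix M a b)) (Icc (M / 4) (3 * M / 4)) : ℕ) : ZMod 2)

theorem Walk.sym_c (W : Walk L v) (hM : 5 ≤ M) {d : Ix n M → ℂ} {κ : Ix n M → ℝ} (G : Gf d κ)
    (k : ℤ) : Cn d κ (v (k - 1)) (v k) (v (k + 1)) = Cn d κ (v (k + 1)) (v k) (v (k - 1)) := by
  have hG := (W.gen (by omega) G).1
  obtain ⟨h1, h2⟩ := W.win_c hM d κ k
  have hL3 : (3:ℝ) ≤ L := by exact_mod_cast W.L3
  have hL0 : (0:ℝ) < L := by linarith
  have h3 := Nw_Nx hG (a := ((k:ℝ) - 3 / 4) / L) (b := ((k:ℝ) + 3 / 4) / L) (by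
    rw [div_add' _ _ _ hL0.ne', div_lt_div_iff_of_pos_right hL0]
    linarith)
  rw [h1, h2] at h3
  have hne : v (k - 1) ≠ v k := by
    have := W.ne1 (k - 1)
    rwa [sub_add_cancel] at this
  unfold Cn
  rw [h3, Nx_rev (Q' := PP d κ (sc M (v (k + 1)) (v k) (v (k - 1)))) (fun t => by
    rw [PP_rev (sc_symm hne (W.ne1 k)), neg_neg])]

theorem Walk.sym_e (W : Walk L v) (hM : 5 ≤ M) {d : Ix n M → ℂ} {κ : Ix n M → ℝ} (G : Gf d κ)
    (k : ℤ) : En d κ (v k) (v (k + 1)) = En d κ (v (k + 1)) (v k) := by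
  have hG := (W.gen (by omega) G).1
  obtain ⟨h1, h2⟩ := W.win_e hM d κ k
  have hL3 : (3:ℝ) ≤ L := by exact_mod_cast W.L3
  have hL0 : (0:ℝ) < L := by linarith
  have h3 := Nw_Nx hG (a := ((k:ℝ) + 1 / 4) / L) (b := ((k:ℝ) + 3 / 4) / L) (by
    rw [div_add' _ _ _ hL0.ne', div_lt_div_iff_of_pos_right hL0]
    linarith)
  rw [h1, h2] at h3
  unfold En
  rw [h3, Nx_rev' (m := M) (Q' := PP d κ (ix M (v (k + 1)) (v k))) (by ring) (fun t => by
    rw [PP_rev (ix_symm (W.ne1 k)), neg_sub]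
    have := PP_congr (d := d) (k := κ) (σ' := ix M (v k) (v (k + 1)))
      (σ := ix M (v k) (v (k + 1))) (A := ⌊t - M⌋) (B := ⌊t - M⌋ + 1) (n0 := M) (fun N _ _ => by
        have := ix_per (M := M) (a := v k) (b := v (k + 1)) N 1
        rw [mul_one] at this
        exact this.symm) (s := t - M) (Int.floor_le _) (by push_cast; exact Int.lt_floor_add_one _)
    rw [this]
    push_cast
    rw [sub_add_cancel])]

/-- the number of zeros of the approximations is odd -/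
theorem eps_one {c : ℝ → ℂ} (L0 : Loop c) (J : Inj c) (nosq : NoSq (range c)) {L : ℕ}
    (hL : 3 ≤ L) : ∃ ε > 0, ∀ q : ℝ → ℂ, Gen q → PLc q → (∀ t, ‖q t - c t‖ ≤ ε) →
      (1 : ZMod 2) = ∑ i ∈ Finset.Ico (0:ℤ) L,
      (((Nw q (Icc (((i:ℝ) - 3 / 4) / L) (((i:ℝ) + 3 / 4) / L)) : ℕ) : ZMod 2) +
       ((Nw q (Icc (((i:ℝ) + 1 / 4) / L) (((i:ℝ) + 3 / 4) / L)) : ℕ) : ZMod 2)) := by
  have hL3 : (3:ℝ) ≤ L := by exact_mod_cast hL
  have hL0 : (0:ℝ) < L := by linarith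
  obtain ⟨ρ, hρd⟩ : ∃ ρ : ℝ, ρ = 1 / (6 * L) := ⟨_, rfl⟩
  have hρ : 0 < ρ := by rw [hρd]; positivity
  have hρ2 : ρ ≤ 1 / 8 := by
    rw [hρd, div_le_div_iff₀ (by positivity) (by norm_num)]
    linarith
  have hρ3 : 6 * L * ρ ≤ 1 := by
    rw [hρd]
    field_simp
    exact le_rfl
  obtain ⟨θ, g, A, hg⟩ := exists_odd L0 J nosq
  obtain ⟨δ, hδ, hKδ⟩ := Kr_bound L0 J (mgc_sg L0) nosq hρ (by linarith)
  refine ⟨δ / 24, by positivity, fun q hG hP hq => ?_⟩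
  have hcl : ∀ x y, Kr ρ x y → ‖GG q (mgc q) x y - GG c (mgc c) x y‖ < ‖GG c (mgc c) x y‖ := by
    intro x y h
    have h1 := GG_close L0 hG.L hq x y
    have h2 := hKδ x y h
    linarith
  have hK : ∀ x y, Kr ρ x y → (x, y) ∉ Zq q := by
    intro x y h hz
    have h0 := (Zq_iff hG.L (mgc_sg hG.L) hz.1).2 hz
    have := hcl x y h
    rw [h0, zero_sub, norm_neg] at this
    exact lt_irrefl _ this
  rw [← dec hG hρ2 hK hL hρ3, short_odd hG hP A hg hρ hρ2 hcl]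

theorem exists_min {β : Type*} [Fintype β] {P : β → ℝ → Prop}
    (hP : ∀ i x y, P i x → y ≤ x → 0 < y → P i y) (h : ∀ i, ∃ ε > 0, P i ε) :
    ∃ ε > 0, ∀ i, P i ε := by
  choose ε hε hP' using h
  rcases isEmpty_or_nonempty β with hm | hm
  · exact ⟨1, one_pos, fun i => isEmptyElim i⟩
  · obtain ⟨i0, hi0⟩ := Finite.exists_min ε
    exact ⟨ε i0, hε i0, fun i => hP i _ _ (hP' i) (hi0 i) (hε i0)⟩

/-- charges of the corners and of the edges -/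
theorem family {β : Type*} [Fintype β] {K : β → Set (Fin n → ℝ)}
    (hψ : ∀ i, ContinuousOn ψ (K i)) (hi : ∀ i, InjOn ψ (K i))
    (L : β → ℕ) (v : β → ℤ → Fin n) (W : ∀ i, Walk (L i) (v i))
    (hK : ∀ i s, ev (v i) s ∈ K i) (hno : ∀ i, NoSq (range (cv ψ (L i) (v i)))) :
    ∃ (X : Fin n → Fin n → Fin n → ZMod 2) (E : Fin n → Fin n → ZMod 2),
      (∀ i k, X (v i (k - 1)) (v i k) (v i (k + 1)) = X (v i (k + 1)) (v i k) (v i (k - 1))) ∧
      (∀ i k, E (v i k) (v i (k + 1)) = E (v i (k + 1)) (v i k)) ∧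
      ∀ i, (1 : ZMod 2) = ∑ k ∈ Finset.Ico (0:ℤ) (L i),
        (X (v i (k - 1)) (v i k) (v i (k + 1)) + E (v i k) (v i (k + 1))) := by
  obtain ⟨ε, hε, H⟩ := exists_min (P := fun i ε => ∀ q : ℝ → ℂ, Gen q → PLc q →
      (∀ t, ‖q t - cv ψ (L i) (v i) t‖ ≤ ε) → (1 : ZMod 2) = ∑ k ∈ Finset.Ico (0:ℤ) (L i),
      (((Nw q (Icc (((k:ℝ) - 3 / 4) / L i) (((k:ℝ) + 3 / 4) / L i)) : ℕ) : ZMod 2) +
       ((Nw q (Icc (((k:ℝ) + 1 / 4) / L i) (((k:ℝ) + 3 / 4) / L i)) : ℕ) : ZMod 2)))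
    (fun i x y h hyx _ q h1 h2 h3 => h q h1 h2 fun t => (h3 t).trans hyx)
    (fun i => eps_one ((W i).cv_loop (hψ i) (hK i)) ((W i).cv_inj (hi i) (hK i)) (hno i) (W i).L3)
  obtain ⟨C, hC⟩ : ∃ C : ℝ, C = (1 + 2 * n * n) * (1 + 2 * n * n) + 1 := ⟨_, rfl⟩
  have hC0 : 0 < C := by rw [hC]; positivity
  obtain ⟨ε', hε'⟩ : ∃ ε' : ℝ, ε' = ε / (2 * C) := ⟨_, rfl⟩
  have hε0 : 0 < ε' := by rw [hε']; positivity
  choose N0 hN0 hN using fun i => ((W i).cv_loop (hψ i) (hK i)).fine hε0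
  obtain ⟨M, hMd⟩ : ∃ M, M = 5 + ∑ i, N0 i := ⟨_, rfl⟩
  have hM5 : 5 ≤ M := by omega
  have hMi : ∀ i, N0 i ≤ M := fun i => by
    have := Finset.single_le_sum (f := N0) (fun i _ => Nat.zero_le _) (Finset.mem_univ i)
    omega
  have : NeZero M := ⟨by omega⟩
  obtain ⟨d, κ, G, hcl⟩ := exGf (ι := Ix n M) d0 d0_ne (fun z => An.cr (d0 z) (p0 ψ z))
    (half_pos hε)
  have hclose : ∀ i t, ‖qv M (L i) (v i) d κ t - cv ψ (L i) (v i) t‖ ≤ ε := by
    intro i t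
    refine (W i).close (by omega) hcl (ε' := ε') (fun s t hst => ?_) ?_ t
    · refine hN i M (hMi i) s t (hst.trans ?_)
      have h3 : (3:ℝ) ≤ L i := by exact_mod_cast (W i).L3
      have h5 : (5:ℝ) ≤ M := by exact_mod_cast hM5
      push_cast
      rw [div_le_div_iff₀ (by positivity) (by positivity)]
      nlinarith
    · rw [← hC, hε']
      have : C * (ε / (2 * C)) = ε / 2 := by field_simp
      rw [this]; linarith
  refine ⟨Cn d κ, En d κ, fun i k => (W i).sym_c hM5 G k, fun i k => (W i).sym_e hM5 G k,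
    fun i => ?_⟩
  have hg := (W i).gen (by omega) G
  rw [H i _ hg.1 hg.2 (hclose i)]
  refine Finset.sum_congr rfl fun k _ => ?_
  rw [((W i).win_c hM5 d κ k).1, ((W i).win_e hM5 d κ k).1]
  rfl

end Pool.Agent.H687.K4
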