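import Pool.Agent.H687.K4.Fam

/-! Topological graphs without inscribed squares: statement for cycles indexed by `ZMod L`. -/

set_option autoImplicit false
open Complex Set Topology Metric

namespace Pool.Agent.H687.K4

open Pool.Agent.H763R2 Pool.Agent.H763R2.An Pool.Agent.Y535.PEG
open Pool.Agent.H763R2.Dm (NoSq)

variable {n L : ℕ}

/-- the geometric realisation of a graph: the union of the segments joining the unit vectors of
adjacent vertices -/
def real (G : SimpleGraph (Fin n)) : Set (Fin n → ℝ) :=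
  {x | ∃ a b, G.Adj a b ∧ x ∈ segment ℝ (Pi.single a 1) (Pi.single b 1)}

/-- the part of the realisation covered by the cycle `v` -/
def track (v : ZMod L → Fin n) : Set (Fin n → ℝ) :=
  {x | ∃ i, x ∈ segment ℝ (Pi.single (v i) 1) (Pi.single (v (i + 1)) 1)}

/-- `v` is a cycle of the graph `G` -/
structure IsCyc (G : SimpleGraph (Fin n)) (v : ZMod L → Fin n) : Prop where
  three : 3 ≤ L
  inj : Function.Injective v
  adj : ∀ i, G.Adj (v i) (v (i + 1))

theorem IsCyc.walk {G : SimpleGraph (Fin n)} {v : ZMod L → Fin n} (C : IsCyc G v) :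
    Walk L fun k : ℤ => v (k : ZMod L) where
  L3 := C.three
  per k := by simp
  inj k k' h := by
    have h1 := C.inj h
    rw [ZMod.intCast_eq_intCast_iff_dvd_sub] at h1
    exact h1

theorem IsCyc.track_sub {G : SimpleGraph (Fin n)} {v : ZMod L → Fin n} (C : IsCyc G v) :
    track v ⊆ real G := fun _ ⟨i, hi⟩ => ⟨_, _, C.adj i, hi⟩

theorem ep_mem (a b : Fin n) {t : ℝ} (h0 : 0 ≤ t) (h1 : t ≤ 1) :
    ep a b t ∈ segment ℝ (Pi.single a 1 : Fin n → ℝ) (Pi.single b 1) :=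
  ⟨1 - t, t, by linarith, h0, by ring, rfl⟩

theorem ev_track (v : ZMod L → Fin n) (s : ℝ) : ev (fun k : ℤ => v (k : ZMod L)) s ∈ track v := by
  refine ⟨((⌊s⌋ : ℤ) : ZMod L), ?_⟩
  have := ep_mem (v ((⌊s⌋ : ℤ) : ZMod L)) (v (((⌊s⌋ : ℤ) : ZMod L) + 1)) (Int.fract_nonneg s)
    (Int.fract_lt_one s).le
  unfold ev
  simp only
  rw [show (((⌊s⌋ + 1 : ℤ)) : ZMod L) = ((⌊s⌋ : ℤ) : ZMod L) + 1 by push_cast; ring]
  exact this

theorem NoSq_mono {A B : Set ℂ} (h : A ⊆ B) (hB : NoSq B) : NoSq A :=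
  fun ⟨z, w, h0, h1, h2, h3, h4⟩ => hB ⟨z, w, h0, h h1, h h2, h h3, h h4⟩

/-- symmetric functions -/
def symm2 (X : Fin n → Fin n → ZMod 2) : Sym2 (Fin n) → ZMod 2 :=
  Sym2.lift ⟨fun a c => if a ≤ c then X a c else X c a, fun a c => by
    rcases lt_trichotomy a c with h | h | h
    · simp [h.le, h.not_ge]
    · simp [h]
    · simp [h.le, h.not_ge]⟩

theorem symm2_eq {X : Fin n → Fin n → ZMod 2} {a c : Fin n} (h : X a c = X c a) :
    symm2 X s(a, c) = X a c := by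
  unfold symm2
  simp only [Sym2.lift_mk]
  split_ifs with h1
  · rfl
  · exact h.symm

/-- charge of an edge counted at its smaller end -/
def half (E : Fin n → Fin n → ZMod 2) (b a : Fin n) : ZMod 2 := if b < a then E b a else 0

theorem half_add {E : Fin n → Fin n → ZMod 2} {a b : Fin n} (h : E a b = E b a) (hab : a ≠ b) :
    half E a b + half E b a = E a b := by
  unfold half
  rcases lt_or_gt_of_ne hab with h1 | h1
  · rw [if_pos h1, if_neg h1.not_gt, add_zero]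
  · rw [if_neg h1.not_gt, if_pos h1, zero_add, h]

theorem sum_Ico_range {M : Type*} [AddCommGroup M] (L : ℕ) (g : ℤ → M) :
    ∑ k ∈ Finset.Ico (0:ℤ) L, g k = ∑ k ∈ Finset.range L, g (k : ℤ) := by
  have : Finset.Ico (0:ℤ) L = (Finset.range L).image (fun k : ℕ => (k : ℤ)) := by
    ext k
    simp only [Finset.mem_Ico, Finset.mem_image, Finset.mem_range]
    constructor
    · rintro ⟨h1, h2⟩
      exact ⟨k.toNat, by omega, by omega⟩
    · rintro ⟨m, h1, rfl⟩
      omega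
  rw [this, Finset.sum_image (fun a _ b _ h => by exact_mod_cast h)]

theorem sum_shift {M : Type*} [AddCommGroup M] (L : ℕ) (f : ℤ → M) (h : f L = f 0) :
    ∑ k ∈ Finset.Ico (0:ℤ) L, f (k + 1) = ∑ k ∈ Finset.Ico (0:ℤ) L, f k := by
  rw [sum_Ico_range, sum_Ico_range]
  have h1 := Finset.sum_range_succ (fun k : ℕ => f (k : ℤ)) L
  have h2 := Finset.sum_range_succ' (fun k : ℕ => f (k : ℤ)) L
  rw [h1] at h2
  push_cast at h2
  rw [h] at h2
  exact (add_right_cancel h2).symm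

/-- **Charges.** -/
theorem charges (G : SimpleGraph (Fin n)) (φ : (Fin n → ℝ) → ℂ) (hφ : ContinuousOn φ (real G)) :
    ∃ χ : Fin n → Sym2 (Fin n) → ZMod 2, ∀ (L : ℕ) (v : ZMod L → Fin n), IsCyc G v →
      InjOn φ (track v) → NoSq (φ '' track v) →
        ∑ i ∈ Finset.range L, χ (v i) s(v (i - 1), v (i + 1)) = 1 := by
  let β : Type := {p : (l : Fin n) × (ZMod (l.val + 1) → Fin n) // IsCyc G p.2 ∧
    InjOn φ (track p.2) ∧ NoSq (φ '' track p.2)}
  have : Finite β := Subtype.finite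
  have : Fintype β := Fintype.ofFinite β
  obtain ⟨X, E, hX, hE, hs⟩ := family (β := β) (ψ := φ) (K := fun p => track p.1.2)
    (fun p => hφ.mono p.2.1.track_sub) (fun p => p.2.2.1) (fun p => p.1.1.val + 1)
    (fun p k => p.1.2 (k : ZMod (p.1.1.val + 1))) (fun p => p.2.1.walk)
    (fun p s => ev_track p.1.2 s) (fun p => NoSq_mono (by
      rintro _ ⟨t, rfl⟩
      exact mem_image_of_mem _ (ev_track p.1.2 _)) p.2.2.2)
  refine ⟨fun b z => symm2 (fun a c => X a b c) z + Sym2.lift ⟨fun a c => half E b a + half E b c,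
    fun a c => add_comm _ _⟩ z, ?_⟩
  intro L v C hi hno
  obtain ⟨l, rfl⟩ : ∃ l, L = l + 1 := ⟨L - 1, by have := C.three; omega⟩
  have hl : l < n := by
    have h1 := Fintype.card_le_of_injective v C.inj
    rw [ZMod.card, Fintype.card_fin] at h1
    omega
  obtain ⟨p, hp⟩ : ∃ p : β, p = ⟨⟨⟨l, hl⟩, v⟩, C, hi, hno⟩ := ⟨_, rfl⟩
  have W := C.walk
  have hXp : ∀ k : ℤ, X (v ((k - 1 : ℤ) : ZMod (l + 1))) (v (k : ZMod (l + 1)))
      (v ((k + 1 : ℤ) : ZMod (l + 1))) = X (v ((k + 1 : ℤ) : ZMod (l + 1)))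
      (v (k : ZMod (l + 1))) (v ((k - 1 : ℤ) : ZMod (l + 1))) := fun k =>
    hX ⟨⟨⟨l, hl⟩, v⟩, C, hi, hno⟩ k
  have hEp : ∀ k : ℤ, E (v (k : ZMod (l + 1))) (v ((k + 1 : ℤ) : ZMod (l + 1))) =
      E (v ((k + 1 : ℤ) : ZMod (l + 1))) (v (k : ZMod (l + 1))) := fun k =>
    hE ⟨⟨⟨l, hl⟩, v⟩, C, hi, hno⟩ k
  have hsp := hs ⟨⟨⟨l, hl⟩, v⟩, C, hi, hno⟩
  simp only at hsp
  rw [hsp]
  have e1 : ∀ k : ℤ, (symm2 (fun a c => X a (v (k : ZMod (l + 1))) c)
      s(v ((k : ZMod (l + 1)) - 1), v ((k : ZMod (l + 1)) + 1)) +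
      Sym2.lift ⟨fun a c => half E (v (k : ZMod (l + 1))) a + half E (v (k : ZMod (l + 1))) c,
        fun a c => add_comm _ _⟩ s(v ((k : ZMod (l + 1)) - 1), v ((k : ZMod (l + 1)) + 1))) =
      X (v ((k - 1 : ℤ) : ZMod (l + 1))) (v (k : ZMod (l + 1))) (v ((k + 1 : ℤ) : ZMod (l + 1))) +
      (half E (v (k : ZMod (l + 1))) (v ((k - 1 : ℤ) : ZMod (l + 1))) +
       half E (v (k : ZMod (l + 1))) (v ((k + 1 : ℤ) : ZMod (l + 1)))) := by
    intro k
    have h1 := hXp k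
    push_cast at h1 ⊢
    rw [symm2_eq h1]
    simp only [Sym2.lift_mk]
  have e2 : ∑ i ∈ Finset.range (l + 1), (symm2 (fun a c => X a (v (i : ZMod (l + 1))) c)
      s(v ((i : ZMod (l + 1)) - 1), v ((i : ZMod (l + 1)) + 1)) +
      Sym2.lift ⟨fun a c => half E (v (i : ZMod (l + 1))) a + half E (v (i : ZMod (l + 1))) c,
        fun a c => add_comm _ _⟩ s(v ((i : ZMod (l + 1)) - 1), v ((i : ZMod (l + 1)) + 1))) =
      ∑ k ∈ Finset.Ico (0:ℤ) ((l + 1 : ℕ) : ℤ), (X (v ((k - 1 : ℤ) : ZMod (l + 1)))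
        (v (k : ZMod (l + 1))) (v ((k + 1 : ℤ) : ZMod (l + 1))) +
      (half E (v (k : ZMod (l + 1))) (v ((k - 1 : ℤ) : ZMod (l + 1))) +
       half E (v (k : ZMod (l + 1))) (v ((k + 1 : ℤ) : ZMod (l + 1))))) := by
    rw [sum_Ico_range]
    refine Finset.sum_congr rfl fun i _ => ?_
    have := e1 (i : ℤ)
    rw [← this]
    simp only [Int.cast_natCast]
  rw [e2, Finset.sum_add_distrib, Finset.sum_add_distrib]
  rw [Finset.sum_add_distrib]
  have e3 := sum_shift (l + 1) (fun k : ℤ => half E (v (k : ZMod (l + 1)))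
    (v ((k - 1 : ℤ) : ZMod (l + 1)))) (by
      have h := W.per 0
      have h' := W.per (-1)
      rw [show (((l + 1 : ℕ) : ℤ) - 1) = -1 + ((l + 1 : ℕ) : ℤ) by ring]
      rw [zero_add] at h
      simp only [zero_sub]
      rw [h, h'])
  rw [← e3, ← Finset.sum_add_distrib]
  rw [add_right_inj]
  refine Finset.sum_congr rfl fun k _ => ?_
  rw [add_sub_cancel_right, add_comm (half _ _ _), half_add (hEp k) (W.ne1 k)]

/-- a cycle of the graph gives a Jordan curve -/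
theorem IsCyc.circle {G : SimpleGraph (Fin n)} {v : ZMod L → Fin n} (C : IsCyc G v)
    {φ : (Fin n → ℝ) → ℂ} (hφ : ContinuousOn φ (track v)) (hi : InjOn φ (track v)) :
    ∃ γ : Circle → ℂ, Continuous γ ∧ Function.Injective γ ∧ range γ = φ '' track v := by
  have W := C.walk
  have hl := W.cv_loop hφ (ev_track v)
  have hj := W.cv_inj hi (ev_track v)
  refine ⟨cir hl, cir_cont hl, cir_inj hl hj, ?_⟩
  rw [range_cir]
  have h3 := C.three
  have : NeZero L := ⟨by omega⟩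
  have hL : (L:ℝ) ≠ 0 := by
    have : L ≠ 0 := by omega
    exact_mod_cast this
  apply Subset.antisymm
  · rintro _ ⟨t, rfl⟩
    exact mem_image_of_mem _ (ev_track v _)
  · rintro _ ⟨x, ⟨i, a, b, ha, hb, hab, rfl⟩, rfl⟩
    refine ⟨((i.val : ℤ) + b) / L, ?_⟩
    unfold cv
    rw [mul_div_cancel₀ _ hL, ev_on _ hb (by linarith)]
    congr 1
    unfold ep
    push_cast
    rw [ZMod.natCast_zmod_val, show 1 - b = a by linarith]

end Pool.Agent.H687.K4
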