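import Pool.Agent.H687.K4.Pol

/-! Polygons near the cycles of a topological graph, cut out by one generic family of lines. -/

set_option autoImplicit false
open Complex Set Topology Metric

namespace Pool.Agent.H687.K4

open Pool.Agent.H763R2 Pool.Agent.H763R2.An Pool.Agent.Y535.PEG
open Pool.Agent.H763R2.Dm (NoSq floor_const)

/-- index type of the lines -/
abbrev Ix (n M : ℕ) : Type := Fin n × Fin n × ZMod M

/-- the `j`-th line of the edge from `a` to `b` -/
def ix {n : ℕ} (M : ℕ) (a b : Fin n) (j : ℤ) : Ix n M :=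
  if a < b then (a, b, (j : ZMod M)) else (b, a, ((-1 - j : ℤ) : ZMod M))

section index

variable {n M : ℕ} {a b a' b' : Fin n}

theorem ix_symm (h : a ≠ b) (j : ℤ) : ix M b a j = ix M a b (-1 - j) := by
  unfold ix
  rcases lt_or_gt_of_ne h with h' | h'
  · rw [if_pos h', if_neg h'.not_gt]
  · rw [if_pos h', if_neg h'.not_gt, show -1 - (-1 - j) = j by ring]

theorem ix_per (j i : ℤ) : ix M a b (j + M * i) = ix M a b j := by
  unfold ix
  have h1 : ((j + M * i : ℤ) : ZMod M) = (j : ZMod M) := by push_cast; simp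
  have h2 : ((-1 - (j + M * i) : ℤ) : ZMod M) = ((-1 - j : ℤ) : ZMod M) := by push_cast; simp
  rw [h1, h2]

theorem ix_inj {j j' : ℤ} (h : ix M a b j = ix M a' b' j') :
    (a = a' ∧ b = b' ∧ (j : ZMod M) = (j' : ZMod M)) ∨ (a = b' ∧ b = a') := by
  unfold ix at h
  split_ifs at h with h1 h2 h2 <;> simp only [Prod.mk.injEq] at h
  · exact Or.inl h
  · exact Or.inr ⟨h.1, h.2.1⟩
  · exact Or.inr ⟨h.2.1, h.1⟩
  · refine Or.inl ⟨h.2.1, h.1, ?_⟩
    have := h.2.2
    push_cast at this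
    exact sub_right_injective this

end index

/-- slope of a line -/
def sl {n M : ℕ} (z : Ix n M) : ℕ := 2 * (n * z.1.val + z.2.1.val) + z.2.2.val % 2

/-- base directions -/
noncomputable def d0 {n M : ℕ} (z : Ix n M) : ℂ := 1 + ((sl z : ℝ) : ℂ) * I

theorem d0_ne {n M : ℕ} (z : Ix n M) : d0 z ≠ 0 := by
  intro h
  have := congrArg Complex.re h
  simp [d0] at this

theorem cr_d0 {n M : ℕ} (z w : Ix n M) : An.cr (d0 z) (d0 w) = (sl w : ℝ) - sl z := by
  unfold An.cr d0; simp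

theorem sl_le {n M : ℕ} (z : Ix n M) : sl z ≤ 2 * n * n := by
  obtain ⟨a, b, j⟩ := z
  unfold sl
  simp only
  have h1 := a.2
  have h2 := b.2
  have h3 : n * a.val + b.val + 1 ≤ n * n := by
    calc n * a.val + b.val + 1 ≤ n * a.val + n := by omega
      _ = n * (a.val + 1) := by ring
      _ ≤ n * n := Nat.mul_le_mul_left n (by omega)
  have h4 := Nat.mod_lt j.val (show 0 < 2 by norm_num)
  have h5 : 2 * n * n = 2 * (n * n) := by ring
  rw [h5]
  omega

theorem sl_inj {n M : ℕ} {a b a' b' : Fin n} {j j' : ZMod M}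
    (h : sl (a, b, j) = sl (a', b', j')) : a = a' ∧ b = b' ∧ j.val % 2 = j'.val % 2 := by
  unfold sl at h
  simp only at h
  have h1 := Nat.mod_lt j.val (show 0 < 2 by norm_num)
  have h2 := Nat.mod_lt j'.val (show 0 < 2 by norm_num)
  have h3 : n * a.val + b.val = n * a'.val + b'.val := by omega
  have hb := b.2
  have hb' := b'.2
  have hn : 0 < n := by omega
  have e1 : (n * a.val + b.val) / n = a.val := by
    rw [Nat.mul_add_div hn, Nat.div_eq_of_lt hb, add_zero]
  have e2 : (n * a'.val + b'.val) / n = a'.val := by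
    rw [Nat.mul_add_div hn, Nat.div_eq_of_lt hb', add_zero]
  have e3 : a.val = a'.val := by rw [← e1, ← e2, h3]
  have e4 : b.val = b'.val := by rw [e3] at h3; omega
  exact ⟨Fin.ext e3, Fin.ext e4, by omega⟩

theorem norm_d0 {n M : ℕ} (z : Ix n M) : ‖d0 z‖ ≤ 1 + 2 * n * n := by
  unfold d0
  refine (norm_add_le _ _).trans ?_
  rw [norm_mul, norm_I, mul_one, norm_real, Real.norm_of_nonneg (Nat.cast_nonneg _), norm_one]
  have : (sl z : ℝ) ≤ ((2 * n * n : ℕ) : ℝ) := by exact_mod_cast sl_le z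
  push_cast at this
  linarith

theorem cr_ge {n M : ℕ} {z w : Ix n M} (h : sl z ≠ sl w) : 1 ≤ |An.cr (d0 z) (d0 w)| := by
  rw [cr_d0]
  rcases lt_or_gt_of_ne h with h' | h'
  · have : (sl z : ℝ) + 1 ≤ sl w := by exact_mod_cast h'
    rw [abs_of_nonneg (by linarith)]; linarith
  · have : (sl w : ℝ) + 1 ≤ sl z := by exact_mod_cast h'
    rw [abs_of_nonpos (by linarith)]; linarith

theorem Xl_near' {u v P1 P2 : ℂ} {R : ℝ} (hu : ‖u‖ ≤ R) (hv : ‖v‖ ≤ R) (h : 1 ≤ |An.cr u v|) :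
    ‖Xl u v (An.cr u P1) (An.cr v P2) - P1‖ ≤ R * R * ‖P2 - P1‖ := by
  have h0 : An.cr u v ≠ 0 := by
    intro h'; rw [h', abs_zero] at h; linarith
  have h0' : ((An.cr u v : ℝ) : ℂ) ≠ 0 := by exact_mod_cast h0
  have key : Xl u v (An.cr u P1) (An.cr v P2) - P1 =
      -(((An.cr v (P2 - P1) : ℝ) : ℂ) * u) / ((An.cr u v : ℝ) : ℂ) := by
    have e : ((An.cr u P1 : ℝ) : ℂ) * v - ((An.cr v P1 : ℝ) : ℂ) * u =
        ((An.cr u v : ℝ) : ℂ) * P1 := by
      unfold An.cr
      apply Complex.ext <;> simp <;> ring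
    unfold Xl
    rw [cr_sub, eq_div_iff h0', sub_mul, div_mul_cancel₀ _ h0']
    push_cast
    linear_combination e
  rw [key, norm_div, norm_neg, norm_mul, norm_real, norm_real, Real.norm_eq_abs, Real.norm_eq_abs]
  have h1 := cr_norm v (P2 - P1)
  have hR : 0 ≤ R := (norm_nonneg u).trans hu
  have h3 : |An.cr v (P2 - P1)| * ‖u‖ ≤ R * R * ‖P2 - P1‖ := by
    calc |An.cr v (P2 - P1)| * ‖u‖ ≤ (‖v‖ * ‖P2 - P1‖) * ‖u‖ :=
          mul_le_mul_of_nonneg_right h1 (norm_nonneg _)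
      _ ≤ (R * ‖P2 - P1‖) * R := by
          have := norm_nonneg (P2 - P1)
          gcongr
      _ = R * R * ‖P2 - P1‖ := by ring
  have h4 : |An.cr v (P2 - P1)| * ‖u‖ / |An.cr u v| ≤ |An.cr v (P2 - P1)| * ‖u‖ :=
    div_le_self (by positivity) h
  exact h4.trans h3

/-- a point of an edge of the simplex -/
noncomputable def ep {n : ℕ} (a b : Fin n) (t : ℝ) : Fin n → ℝ :=
  (1 - t) • Pi.single a 1 + t • Pi.single b 1

theorem ep_symm {n : ℕ} (a b : Fin n) (t : ℝ) : ep b a t = ep a b (1 - t) := by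
  unfold ep
  rw [sub_sub_cancel, add_comm]

/-- a closed walk of length `L` without repetition of vertices -/
structure Walk {n : ℕ} (L : ℕ) (v : ℤ → Fin n) : Prop where
  L3 : 3 ≤ L
  per : ∀ k, v (k + L) = v k
  inj : ∀ k k', v k = v k' → (L : ℤ) ∣ k' - k

section walk

variable {n L : ℕ} {v : ℤ → Fin n}

theorem not_dvd {L : ℕ} (hL : 3 ≤ L) {i : ℤ} (h0 : i ≠ 0) (h1 : -2 ≤ i) (h2 : i ≤ 2) :
    ¬ (L : ℤ) ∣ i := by
  intro h
  have := Int.eq_zero_of_abs_lt_dvd h (by rw [abs_lt]; constructor <;> omega)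
  exact h0 this

theorem Walk.ne1 (W : Walk L v) (k : ℤ) : v k ≠ v (k + 1) := fun h =>
  not_dvd W.L3 (by norm_num) (by norm_num) (by norm_num) (by simpa using W.inj _ _ h :
    (L : ℤ) ∣ 1)

theorem Walk.ne2 (W : Walk L v) (k : ℤ) : v (k - 1) ≠ v (k + 1) := fun h =>
  not_dvd W.L3 (i := 2) (by norm_num) (by norm_num) (by norm_num) (by
    have := W.inj _ _ h
    rwa [show k + 1 - (k - 1) = 2 by ring] at this)

/-- the parametrisation of the cycle in the simplex by the length -/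
noncomputable def ev {n : ℕ} (v : ℤ → Fin n) (s : ℝ) : Fin n → ℝ :=
  ep (v ⌊s⌋) (v (⌊s⌋ + 1)) (Int.fract s)

theorem ev_near (k : ℤ) {s : ℝ} (h1 : (k : ℝ) - 1 < s) (h2 : s < k + 1) :
    ev v s = Pi.single (v k) 1 + (max (s - k) 0) • (Pi.single (v (k + 1)) 1 - Pi.single (v k) 1) +
      (min (s - k) 0) • (Pi.single (v k) 1 - Pi.single (v (k - 1)) 1) := by
  rcases le_or_gt (k:ℝ) s with h | h
  · have hf : ⌊s⌋ = k := Int.floor_eq_iff.2 ⟨h, h2⟩
    have e : Int.fract s = s - k := by rw [← Int.self_sub_floor, hf]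
    unfold ev ep
    rw [hf, e, max_eq_left (by linarith), min_eq_right (by linarith)]
    module
  · have hf : ⌊s⌋ = k - 1 := Int.floor_eq_iff.2 ⟨by push_cast; linarith, by push_cast; linarith⟩
    have e : Int.fract s = s - k + 1 := by rw [← Int.self_sub_floor, hf]; push_cast; ring
    unfold ev ep
    rw [hf, e, max_eq_right (by linarith), min_eq_left (by linarith), sub_add_cancel]
    module

theorem ev_cont : Continuous (ev v) := by
  rw [continuous_iff_continuousAt]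
  intro s
  have h1 := Int.floor_le s
  have h2 := Int.lt_floor_add_one s
  obtain ⟨k, hk⟩ : ∃ k, k = ⌊s⌋ := ⟨_, rfl⟩
  rw [← hk] at h1 h2
  have hc : Continuous fun s : ℝ => (Pi.single (v k) 1 : Fin n → ℝ) +
      (max (s - k) 0) • (Pi.single (v (k + 1)) 1 - Pi.single (v k) 1) +
      (min (s - k) 0) • (Pi.single (v k) 1 - Pi.single (v (k - 1)) 1) := by fun_prop
  refine hc.continuousAt.congr ?_
  filter_upwards [Ioo_mem_nhds (show (k:ℝ) - 1 < s by linarith) h2] with x hx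
  exact (ev_near k hx.1 hx.2).symm

theorem ev_on (k : ℤ) {r : ℝ} (h0 : 0 ≤ r) (h1 : r ≤ 1) :
    ev v (k + r) = ep (v k) (v (k + 1)) r := by
  rcases lt_or_eq_of_le h1 with h | h
  · have hf : ⌊(k:ℝ) + r⌋ = k := Int.floor_eq_iff.2 ⟨by linarith, by linarith⟩
    unfold ev
    rw [hf, ← Int.self_sub_floor, hf, add_sub_cancel_left]
  · have hf : ⌊(k:ℝ) + r⌋ = k + 1 := by
      rw [h]; exact_mod_cast Int.floor_intCast (k + 1)
    have hfr : Int.fract ((k:ℝ) + r) = 0 := by
      rw [← Int.self_sub_floor, hf, h]; push_cast; ring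
    unfold ev
    rw [hf, hfr, h]
    unfold ep
    simp

theorem Walk.ev_per (W : Walk L v) (s : ℝ) : ev v (s + L) = ev v s := by
  unfold ev
  rw [Int.floor_add_natCast, Int.fract_add_natCast, W.per, show ⌊s⌋ + L + 1 = ⌊s⌋ + 1 + L by ring,
    W.per]

theorem ep_inj {a b a' b' : Fin n} (hab : a ≠ b) (hab' : a' ≠ b') {s s' : ℝ}
    (hs1 : s < 1) (hs1' : s' < 1) (h : ep a b s = ep a' b' s') :
    (a = a' ∧ s = s') ∨ (a = b' ∧ b = a') := by
  have ev : ∀ i, (1 - s) * (if i = a then 1 else 0) + s * (if i = b then 1 else 0) =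
      (1 - s') * (if i = a' then 1 else 0) + s' * (if i = b' then 1 else 0) := by
    intro i
    have := congrFun h i
    simpa [ep, Pi.single_apply] using this
  by_cases h1 : a = a'
  · subst h1
    left
    refine ⟨rfl, ?_⟩
    have := ev a
    simp [hab, hab'] at this
    linarith
  · right
    have h2 := ev a
    have h3 := ev a'
    by_cases h4 : a = b'
    · refine ⟨h4, ?_⟩
      by_contra h5
      simp [Ne.symm h1, Ne.symm h5, hab'] at h3
      linarith
    · simp [h1, hab, h4] at h2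
      linarith

theorem Walk.ev_inj (W : Walk L v) {s s' : ℝ} (h : ev v s = ev v s') :
    ∃ j : ℤ, s' = s + L * j := by
  have h1 := Int.fract_lt_one s
  have h1' := Int.fract_lt_one s'
  have e := Int.floor_add_fract s
  have e' := Int.floor_add_fract s'
  rcases ep_inj (W.ne1 _) (W.ne1 _) h1 h1' h with ⟨h2, h3⟩ | ⟨h2, h3⟩
  · obtain ⟨j, hj⟩ := W.inj _ _ h2
    refine ⟨j, ?_⟩
    have : ((⌊s'⌋ - ⌊s⌋ : ℤ) : ℝ) = L * j := by rw [hj]; push_cast; ring
    push_cast at this
    linarith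
  · exfalso
    have d1 := W.inj _ _ h2
    have d2 := W.inj _ _ h3
    have d3 := dvd_sub d1 d2
    rw [show ⌊s'⌋ + 1 - ⌊s⌋ - (⌊s'⌋ - (⌊s⌋ + 1)) = 2 by ring] at d3
    exact not_dvd W.L3 (i := 2) (by norm_num) (by norm_num) (by norm_num) d3

end walk

end Pool.Agent.H687.K4
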