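import Pool.Agent.H687.K4.Fin

/-! Every topological complete graph with four vertices in the plane contains a Jordan curve with an
inscribed square. -/

set_option autoImplicit false
open Complex Set Topology Metric

namespace Pool.Agent.H687.K4

open Pool.Agent.H763R2.Dm (NoSq)

theorem two0 (x : ZMod 2) : x + x = 0 := by
  revert x; decide

theorem sum3 (χ : Fin 4 → Sym2 (Fin 4) → ZMod 2) (a b c : Fin 4) {v : ZMod 3 → Fin 4}
    (h0 : v 0 = a) (h1 : v 1 = b) (h2 : v 2 = c)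
    (h : ∑ i ∈ Finset.range 3, χ (v i) s(v (i - 1), v (i + 1)) = 1) :
    χ a s(c, b) + χ b s(a, c) + χ c s(b, a) = 1 := by
  rw [Finset.sum_range_succ, Finset.sum_range_succ, Finset.sum_range_succ, Finset.sum_range_zero,
    zero_add] at h
  have e0 : ((0:ℕ) : ZMod 3) = 0 := rfl
  have e1 : ((1:ℕ) : ZMod 3) = 1 := rfl
  have e2 : ((2:ℕ) : ZMod 3) = 2 := rfl
  have e3 : (0 - 1 : ZMod 3) = 2 := rfl
  have e4 : (0 + 1 : ZMod 3) = 1 := rfl
  have e5 : (1 - 1 : ZMod 3) = 0 := rfl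
  have e6 : (1 + 1 : ZMod 3) = 2 := rfl
  have e7 : (2 - 1 : ZMod 3) = 1 := rfl
  have e8 : (2 + 1 : ZMod 3) = 0 := rfl
  rw [e0, e1, e2, e3, e4, e5, e6, e7, e8, h0, h1, h2] at h
  exact h

theorem sum4 (χ : Fin 4 → Sym2 (Fin 4) → ZMod 2) (a b c d : Fin 4) {v : ZMod 4 → Fin 4}
    (h0 : v 0 = a) (h1 : v 1 = b) (h2 : v 2 = c) (h3 : v 3 = d)
    (h : ∑ i ∈ Finset.range 4, χ (v i) s(v (i - 1), v (i + 1)) = 1) :
    χ a s(d, b) + χ b s(a, c) + χ c s(b, d) + χ d s(c, a) = 1 := by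
  rw [Finset.sum_range_succ, Finset.sum_range_succ, Finset.sum_range_succ, Finset.sum_range_succ,
    Finset.sum_range_zero, zero_add] at h
  have e0 : ((0:ℕ) : ZMod 4) = 0 := rfl
  have e1 : ((1:ℕ) : ZMod 4) = 1 := rfl
  have e2 : ((2:ℕ) : ZMod 4) = 2 := rfl
  have e2' : ((3:ℕ) : ZMod 4) = 3 := rfl
  have e3 : (0 - 1 : ZMod 4) = 3 := rfl
  have e4 : (0 + 1 : ZMod 4) = 1 := rfl
  have e5 : (1 - 1 : ZMod 4) = 0 := rfl
  have e6 : (1 + 1 : ZMod 4) = 2 := rfl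
  have e7 : (2 - 1 : ZMod 4) = 1 := rfl
  have e8 : (2 + 1 : ZMod 4) = 3 := rfl
  have e9 : (3 - 1 : ZMod 4) = 2 := rfl
  have e10 : (3 + 1 : ZMod 4) = 0 := rfl
  rw [e0, e1, e2, e2', e3, e4, e5, e6, e7, e8, e9, e10, h0, h1, h2, h3] at h
  exact h

/-- the triangle `a b c` -/
def tri (a b c : Fin 4) : ZMod 3 → Fin 4 := ![a, b, c]

/-- the cycle `a b c d` -/
def quad (a b c d : Fin 4) : ZMod 4 → Fin 4 := ![a, b, c, d]

theorem cyc_top {L : ℕ} {v : ZMod L → Fin 4} (hL : 3 ≤ L) (h : Function.Injective v) :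
    IsCyc (⊤ : SimpleGraph (Fin 4)) v where
  three := hL
  inj := h
  adj i := by
    rw [SimpleGraph.top_adj]
    intro he
    have h1 := h he
    have h2 : (1 : ZMod L) = 0 := by
      have := sub_eq_zero.2 h1
      rw [sub_add_cancel_left, neg_eq_zero] at this
      exact this
    have : ((1 : ℕ) : ZMod L) = 0 := by exact_mod_cast h2
    rw [ZMod.natCast_eq_zero_iff] at this
    have := Nat.le_of_dvd one_pos this
    omega

theorem k4 (φ : (Fin 4 → ℝ) → ℂ) (hφ : ContinuousOn φ (real ⊤)) (hi : InjOn φ (real ⊤)) :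
    ∃ γ : Circle → ℂ, Continuous γ ∧ Function.Injective γ ∧ range γ ⊆ φ '' real ⊤ ∧
      ¬ NoSq (range γ) := by
  obtain ⟨χ, hχ⟩ := charges ⊤ φ hφ
  by_contra hno
  have key : ∀ (L : ℕ) (v : ZMod L → Fin 4), 3 ≤ L → Function.Injective v →
      ∑ i ∈ Finset.range L, χ (v i) s(v (i - 1), v (i + 1)) = 1 := by
    intro L v hL hv
    have C := cyc_top hL hv
    refine hχ L v C (hi.mono C.track_sub) ?_
    by_contra hsq
    obtain ⟨γ, h1, h2, h3⟩ := C.circle (hφ.mono C.track_sub) (hi.mono C.track_sub)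
    exact hno ⟨γ, h1, h2, by rw [h3]; exact image_mono C.track_sub, by rw [h3]; exact hsq⟩
  have t1 := sum3 χ 0 1 2 rfl rfl rfl (key 3 (tri 0 1 2) le_rfl (by decide))
  have t2 := sum3 χ 0 1 3 rfl rfl rfl (key 3 (tri 0 1 3) le_rfl (by decide))
  have t3 := sum3 χ 0 2 3 rfl rfl rfl (key 3 (tri 0 2 3) le_rfl (by decide))
  have t4 := sum3 χ 1 2 3 rfl rfl rfl (key 3 (tri 1 2 3) le_rfl (by decide))
  have q1 := sum4 χ 0 1 2 3 rfl rfl rfl rfl (key 4 (quad 0 1 2 3) (by norm_num) (by decide))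
  have q2 := sum4 χ 0 1 3 2 rfl rfl rfl rfl (key 4 (quad 0 1 3 2) (by norm_num) (by decide))
  have q3 := sum4 χ 0 2 1 3 rfl rfl rfl rfl (key 4 (quad 0 2 1 3) (by norm_num) (by decide))
  have s : ∀ a b : Fin 4, s(a, b) = s(b, a) := fun a b => Sym2.eq_swap
  rw [s 2 1, s 1 0] at t1
  rw [s 3 1, s 1 0] at t2
  rw [s 3 2, s 2 0] at t3
  rw [s 3 2, s 2 1] at t4
  rw [s 3 1, s 2 0] at q1
  rw [s 2 1, s 3 0] at q2
  rw [s 3 2, s 1 0] at q3
  have h2 : (2 : ZMod 2) = 0 := rfl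
  have h7 : (7 : ZMod 2) = 1 := rfl
  have key : (2 : ZMod 2) * (χ 0 s(1, 2) + χ 1 s(0, 2) + χ 2 s(0, 1) + χ 0 s(1, 3) + χ 1 s(0, 3) +
      χ 3 s(0, 1) + χ 0 s(2, 3) + χ 2 s(0, 3) + χ 3 s(0, 2) + χ 1 s(2, 3) + χ 2 s(1, 3) +
      χ 3 s(1, 2)) = 7 := by
    linear_combination t1 + t2 + t3 + t4 + q1 + q2 + q3
  rw [h2, h7, zero_mul] at key
  exact absurd key (by decide)

end Pool.Agent.H687.K4
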