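import Pool.Agent.H687.K4.Dec

/-! Polygonal paths cut out by a generic family of lines. -/

set_option autoImplicit false
open Complex Set Topology Metric

namespace Pool.Agent.H687.K4

open Pool.Agent.H763R2 Pool.Agent.H763R2.An Pool.Agent.Y535.PEG
open Pool.Agent.H763R2.Dm (NoSq floor_const)

variable {ι : Type*} {d : ι → ℂ} {k : ι → ℝ}

/-- vertex of the path -/
noncomputable def Vp (d : ι → ℂ) (k : ι → ℝ) (σ : ℤ → ι) (n : ℤ) : ℂ :=
  Xl (d (σ (n - 1))) (d (σ n)) (k (σ (n - 1))) (k (σ n))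

/-- polygonal path, vertices at the integers -/
noncomputable def PP (d : ι → ℂ) (k : ι → ℝ) (σ : ℤ → ι) (s : ℝ) : ℂ :=
  Vp d k σ ⌊s⌋ + (Int.fract s : ℝ) * (Vp d k σ (⌊s⌋ + 1) - Vp d k σ ⌊s⌋)

theorem Xl_symm (u v : ℂ) (a b : ℝ) : Xl v u b a = Xl u v a b := by
  unfold Xl
  rw [cr_comm u v]
  push_cast
  rw [div_neg, ← neg_div]
  congr 1; ring

theorem PP_congr {σ σ' : ℤ → ι} {A B n0 : ℤ} (h : ∀ n, A - 1 ≤ n → n ≤ B → σ' n = σ (n + n0))
    {s : ℝ} (h1 : (A:ℝ) ≤ s) (h2 : s < B) : PP d k σ' s = PP d k σ (s + n0) := by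
  have f1 : A ≤ ⌊s⌋ := Int.le_floor.2 h1
  have f2 : ⌊s⌋ < B := Int.floor_lt.2 h2
  have v1 : Vp d k σ' ⌊s⌋ = Vp d k σ (⌊s⌋ + n0) := by
    unfold Vp
    rw [h (⌊s⌋ - 1) (by omega) (by omega), h ⌊s⌋ (by omega) (by omega),
      show ⌊s⌋ - 1 + n0 = ⌊s⌋ + n0 - 1 by ring]
  have v2 : Vp d k σ' (⌊s⌋ + 1) = Vp d k σ (⌊s⌋ + n0 + 1) := by
    unfold Vp
    rw [add_sub_cancel_right, add_sub_cancel_right, h ⌊s⌋ (by omega) (by omega),
      h (⌊s⌋ + 1) (by omega) (by omega), show ⌊s⌋ + 1 + n0 = ⌊s⌋ + n0 + 1 by ring]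
  unfold PP
  rw [Int.floor_add_intCast, Int.fract_add_intCast, v1, v2]

theorem PP_rev {σ σ' : ℤ → ι} (h : ∀ n, σ' n = σ (-1 - n)) (s : ℝ) :
    PP d k σ' s = PP d k σ (-s) := by
  have hV : ∀ n, Vp d k σ' n = Vp d k σ (-n) := by
    intro n
    unfold Vp
    rw [h, h, ← Xl_symm, show -1 - (n - 1) = -n by ring, show -1 - n = -n - 1 by ring]
  by_cases hf : Int.fract s = 0
  · have hs : s = ⌊s⌋ := by have := Int.floor_add_fract s; rw [hf] at this; linarith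
    have h1 : ⌊-s⌋ = -⌊s⌋ := by
      rw [hs, ← Int.cast_neg, Int.floor_intCast, Int.floor_intCast]
    have h2 : Int.fract (-s) = 0 := by rw [hs, ← Int.cast_neg, Int.fract_intCast]
    unfold PP
    rw [hf, h1, h2, hV]
    simp
  · have h1 : ⌊-s⌋ = -⌊s⌋ - 1 := by
      rw [Int.floor_eq_iff]
      have := lt_of_le_of_ne (Int.fract_nonneg s) (Ne.symm hf)
      have h3 := Int.fract_lt_one s
      have h4 := Int.floor_add_fract s
      push_cast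
      constructor <;> linarith
    have h2 : Int.fract (-s) = 1 - Int.fract s := by
      rw [← Int.self_sub_floor, h1]
      have h4 := Int.floor_add_fract s
      push_cast; linarith
    unfold PP
    rw [h1, h2, hV, hV, show -⌊s⌋ - 1 + 1 = -⌊s⌋ by ring, show -(⌊s⌋ + 1) = -⌊s⌋ - 1 by ring]
    push_cast; ring

/-- genericity of a finite family of lines -/
structure Gf (d : ι → ℂ) (k : ι → ℝ) : Prop where
  hd : ∀ i, d i ≠ 0
  h1 : D1 d
  h2 : D2 d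
  h3 : D3 d k
  h4 : D4 d k

theorem Gf.gl (G : Gf d k) {m : ℕ} (hm : 3 ≤ m) {s : ZMod m → ι} (hs : Function.Injective s) :
    Gl (d ∘ s) (k ∘ s) where
  m3 := hm
  hd _ := G.hd _
  h1 _ _ h := G.h1 _ _ (hs.ne h)
  h2 _ _ _ _ n1 n2 n3 := G.h2 _ _ _ _ (hs.ne n1) (hs.ne n2) (hs.ne n3)
  h3 a b c e f A w h n1 n2 n3 n4 := G.h3 (s a) (s b) (s c) (s e) (s f) A w
    ⟨h.w0, h.ha, h.hb, h.hc, h.he⟩ (hs.ne n1) (hs.ne n2) (hs.ne n3) (hs.ne n4)
  h4 a b c z n1 n2 n3 := G.h4 (s a) (s b) (s c) z (hs.ne n1) (hs.ne n2) (hs.ne n3)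

/-- index map of a periodic sequence -/
def sC (m : ℕ) (σ : ℤ → ι) (z : ZMod m) : ι := σ (z.val : ℤ)

theorem per_mul {σ : ℤ → ι} {m : ℕ} (hp : ∀ n, σ (n + m) = σ n) (n j : ℤ) :
    σ (n + m * j) = σ n := by
  induction j using Int.induction_on with
  | zero => simp
  | succ i ih =>
    rw [show n + m * ((i : ℤ) + 1) = n + m * i + m by ring, hp, ih]
  | pred i ih =>
    rw [← hp, show n + m * (-(i : ℤ) - 1) + m = n + m * -i by ring, ih]

theorem sC_cast {m : ℕ} [NeZero m] {σ : ℤ → ι} (hp : ∀ n, σ (n + m) = σ n) (n : ℤ) :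
    sC m σ (n : ZMod m) = σ n := by
  obtain ⟨j, hj⟩ := val_ex (m := m) n
  unfold sC
  conv_rhs => rw [hj]
  rw [per_mul hp]

theorem sC_inj {m : ℕ} [NeZero m] {σ : ℤ → ι} (hp : ∀ n, σ (n + m) = σ n)
    (hi : ∀ n n', σ n = σ n' → (m : ℤ) ∣ n' - n) : Function.Injective (sC m σ) := by
  intro a b h
  obtain ⟨n, rfl⟩ := ZMod.intCast_surjective a
  obtain ⟨n', rfl⟩ := ZMod.intCast_surjective b
  rw [sC_cast hp, sC_cast hp] at h
  exact (ZMod.intCast_eq_intCast_iff_dvd_sub _ _ m).2 (hi n n' h)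

theorem pp_PP {m : ℕ} [NeZero m] {σ : ℤ → ι} (hp : ∀ n, σ (n + m) = σ n) (s : ℝ) :
    pp (d ∘ sC m σ) (k ∘ sC m σ) s = PP d k σ s := by
  have hV : ∀ n, Vx (d ∘ sC m σ) (k ∘ sC m σ) n = Vp d k σ n := by
    intro n
    unfold Vx Vp
    simp only [Function.comp_apply, sC_cast hp]
  unfold pp PP Ux
  rw [hV, hV]

/-- small perturbations of lines -/
theorem pertI [Fintype ι] (d0 : ι → ℂ) (k0 : ι → ℝ) {ε : ℝ} (hε : 0 < ε) : ∃ δ > 0,
    ∀ f k : ι → ℝ, (∀ i, f i ∈ Ioo 0 δ) → (∀ i, k i ∈ Ioo (k0 i) (k0 i + δ)) → ∀ i j : ι,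
    An.cr (d0 i) (d0 j) ≠ 0 →
    ‖Xl (dp d0 f i) (dp d0 f j) (k i) (k j) - Xl (d0 i) (d0 j) (k0 i) (k0 j)‖ < ε := by
  have key : ∀ᶠ p : (ι → ℝ) × (ι → ℝ) in 𝓝 ((0 : ι → ℝ), k0), ∀ a : ι, ∀ b : ι,
      An.cr (d0 a) (d0 b) ≠ 0 →
      ‖Xl (dp d0 p.1 a) (dp d0 p.1 b) (p.2 a) (p.2 b) -
        Xl (d0 a) (d0 b) (k0 a) (k0 b)‖ < ε := by
    rw [Filter.eventually_all]
    intro a
    rw [Filter.eventually_all]
    intro b
    by_cases hcr : An.cr (d0 a) (d0 b) = 0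
    · exact Filter.Eventually.of_forall fun _ h => absurd hcr h
    have dp0 : ∀ a, dp d0 0 a = d0 a := by intro a; unfold dp; simp
    have hc : ContinuousAt (fun p : (ι → ℝ) × (ι → ℝ) =>
        Xl (dp d0 p.1 a) (dp d0 p.1 b) (p.2 a) (p.2 b)) ((0 : ι → ℝ), k0) := by
      unfold Xl
      refine ContinuousAt.div ?_ ?_ ?_
      · unfold dp
        apply Continuous.continuousAt
        fun_prop
      · unfold An.cr dp
        apply Continuous.continuousAt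
        fun_prop
      · simp only [dp0]
        exact_mod_cast hcr
    have h2 := Metric.continuousAt_iff'.1 hc ε hε
    filter_upwards [h2] with p hp _
    rw [dist_eq_norm] at hp
    simpa only [dp0] using hp
  obtain ⟨δ, hδ, hk⟩ := Metric.eventually_nhds_iff.1 key
  refine ⟨δ, hδ, fun f k hf hkk i j hij => ?_⟩
  exact hk (y := (f, k)) (by
    rw [Prod.dist_eq]
    refine max_lt ((dist_pi_lt_iff hδ).2 fun i => ?_) ((dist_pi_lt_iff hδ).2 fun i => ?_)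
    · change dist (f i) 0 < δ
      rw [Real.dist_eq, sub_zero, abs_of_pos (hf i).1]; exact (hf i).2
    · change dist (k i) (k0 i) < δ
      rw [Real.dist_eq, abs_of_pos (by linarith [(hkk i).1])]; linarith [(hkk i).2]) i j hij

/-- existence of generic perturbations -/
theorem exGf [Fintype ι] [DecidableEq ι] (d0 : ι → ℂ) (hd : ∀ i, d0 i ≠ 0) (k0 : ι → ℝ) {ε : ℝ}
    (hε : 0 < ε) : ∃ (d : ι → ℂ) (k : ι → ℝ), Gf d k ∧ ∀ i j : ι, An.cr (d0 i) (d0 j) ≠ 0 →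
      ‖Xl (d i) (d j) (k i) (k j) - Xl (d0 i) (d0 j) (k0 i) (k0 j)‖ < ε := by
  obtain ⟨δ, hδ, hp⟩ := pertI d0 k0 hε
  obtain ⟨f, hf, h1, h2⟩ := stageA hd (fun _ => Ioo 0 δ) (fun _ => Ioo_infinite hδ)
  obtain ⟨k, hk, h3, h4⟩ := stageB (dp_ne hd f) h1 h2
    (fun i => Ioo (k0 i) (k0 i + δ)) (fun i => Ioo_infinite (by linarith))
  exact ⟨dp d0 f, k, ⟨dp_ne hd f, h1, h2, h3, h4⟩, fun i j hij => hp f k hf hk i j hij⟩

theorem Xl_near {u v P1 P2 : ℂ} (hu : ‖u‖ ≤ 2) (hv : ‖v‖ ≤ 2) (h : |An.cr u v| = 1) :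
    ‖Xl u v (An.cr u P1) (An.cr v P2) - P1‖ ≤ 4 * ‖P2 - P1‖ := by
  have h0 : An.cr u v ≠ 0 := by
    intro h'; rw [h', abs_zero] at h; exact zero_ne_one h
  have h0' : ((An.cr u v : ℝ) : ℂ) ≠ 0 := by exact_mod_cast h0
  have key : Xl u v (An.cr u P1) (An.cr v P2) - P1 =
      -(((An.cr v (P2 - P1) : ℝ) : ℂ) * u) / ((An.cr u v : ℝ) : ℂ) := by
    have e : ((An.cr u P1 : ℝ) : ℂ) * v - ((An.cr v P1 : ℝ) : ℂ) * u =
        ((An.cr u v : ℝ) : ℂ) * P1 := by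
      unfold An.cr
      apply Complex.ext <;> simp <;> ring
    unfold Xl
    rw [cr_sub, eq_div_iff h0', sub_mul, div_mul_cancel₀ _ h0']
    push_cast
    linear_combination e
  rw [key, norm_div, norm_neg, norm_mul, norm_real, norm_real, Real.norm_eq_abs, Real.norm_eq_abs,
    h, div_one]
  have h1 := cr_norm v (P2 - P1)
  have h2 : |An.cr v (P2 - P1)| * ‖u‖ ≤ (‖v‖ * ‖P2 - P1‖) * ‖u‖ :=
    mul_le_mul_of_nonneg_right h1 (norm_nonneg _)
  have h3 : ‖v‖ * ‖P2 - P1‖ * ‖u‖ ≤ 2 * ‖P2 - P1‖ * 2 := by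
    have := norm_nonneg (P2 - P1)
    have := norm_nonneg u
    have := norm_nonneg v
    gcongr
  linarith

/-- a polygon with vertices near the curve is near the curve -/
theorem near_poly {c : ℝ → ℂ} {m : ℕ} (hm : 0 < m) {D : ZMod m → ℂ} {K : ZMod m → ℝ} {ε : ℝ}
    (near : ∀ (n : ℤ) (t : ℝ), |t - n / m| ≤ 1 / m → ‖Vx D K n - c t‖ ≤ ε) (t : ℝ) :
    ‖qq D K t - c t‖ ≤ ε := by
  have hm0 : (0 : ℝ) < m := by exact_mod_cast hm
  obtain ⟨n, hn⟩ : ∃ n : ℤ, n = ⌊m * t⌋ := ⟨_, rfl⟩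
  have f0 := Int.fract_nonneg ((m:ℝ) * t)
  have f1 := (Int.fract_lt_one ((m:ℝ) * t)).le
  have fe : (n:ℝ) + Int.fract (m * t) = m * t := by rw [hn]; exact Int.floor_add_fract _
  have et : t = n / m + Int.fract (m * t) / m := by
    rw [← add_div, fe, mul_div_cancel_left₀ _ hm0.ne']
  have n1 := near n t (by
    rw [show t - n / m = Int.fract (m * t) / m by linarith, abs_of_nonneg (by positivity)]
    gcongr)
  have n2 := near (n + 1) t (by
    push_cast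
    rw [show t - ((n:ℝ) + 1) / m = -((1 - Int.fract (m * t)) / m) by
      rw [add_div, sub_div]; linarith, abs_neg, abs_of_nonneg (div_nonneg (by linarith) hm0.le)]
    gcongr
    linarith)
  have e : qq D K t - c t =
      ((1 - Int.fract (m * t) : ℝ) : ℂ) * (Vx D K n - c t) +
      ((Int.fract (m * t) : ℝ) : ℂ) * (Vx D K (n + 1) - c t) := by
    unfold qq pp Ux; rw [← hn]; push_cast; ring
  rw [e]
  refine (norm_add_le _ _).trans ?_
  rw [norm_mul, norm_mul, norm_real, norm_real, Real.norm_eq_abs, Real.norm_eq_abs,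
    abs_of_nonneg f0, abs_of_nonneg (by linarith)]
  nlinarith

end Pool.Agent.H687.K4
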