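import Pool.Agent.H687.K4.Tiny

/-! Parity of the number of short zeros of a generic closed polygon near a curve without inscribed
squares. -/

set_option autoImplicit false
open Complex Set Topology Metric

namespace Pool.Agent.H687.K4

open Pool.Agent.H763R2 Pool.Agent.H763R2.An Pool.Agent.Y535.PEG
open Pool.Agent.H763R2.Dm (NoSq floor_const)

variable {c q : ℝ → ℂ} {θ : ℝ → ℝ → ℝ} {g : ℤ}

/-- fundamental domains -/
theorem fd {α : Type*} (sh : ℤ → α → α) (h0 : ∀ a, sh 0 a = a)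
    (hadd : ∀ m n a, sh m (sh n a) = sh (m + n) a) (T : Set α) (hT : ∀ n, ∀ a ∈ T, sh n a ∈ T)
    (f k : α → ℝ) (hf : ∀ n a, f (sh n a) = f a + n) (hk : ∀ n a, k (sh n a) = k a + n)
    (σ τ : ℝ) : {a | a ∈ T ∧ σ ≤ f a ∧ f a < σ + 1}.ncard =
      {a | a ∈ T ∧ τ ≤ k a ∧ k a < τ + 1}.ncard := by
  refine Set.ncard_congr (fun a _ => sh (-⌊k a - τ⌋) a) ?_ ?_ ?_
  · rintro a ⟨ha, -, -⟩
    have h1 := Int.floor_le (k a - τ)
    have h2 := Int.lt_floor_add_one (k a - τ)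
    refine ⟨hT _ a ha, ?_, ?_⟩ <;> rw [hk] <;> push_cast <;> linarith
  · rintro a b ⟨ha, ha1, ha2⟩ ⟨hb, hb1, hb2⟩ h
    have h1 := congrArg (sh ⌊k a - τ⌋) h
    rw [hadd, hadd, add_neg_cancel, h0] at h1
    have h2 := congrArg f h1
    rw [hf] at h2
    have h3 : ⌊k a - τ⌋ + -⌊k b - τ⌋ = 0 := by
      have a1 : ((⌊k a - τ⌋ + -⌊k b - τ⌋ : ℤ) : ℝ) < 1 := by linarith
      have a2 : (-1 : ℝ) < ((⌊k a - τ⌋ + -⌊k b - τ⌋ : ℤ) : ℝ) := by linarith
      have a3 : ⌊k a - τ⌋ + -⌊k b - τ⌋ < 1 := by exact_mod_cast a1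
      have a4 : -1 < ⌊k a - τ⌋ + -⌊k b - τ⌋ := by exact_mod_cast a2
      omega
    rw [h3, h0] at h1
    exact h1
  · rintro b ⟨hb, hb1, hb2⟩
    have h1 := Int.floor_le (f b - σ)
    have h2 := Int.lt_floor_add_one (f b - σ)
    refine ⟨sh (-⌊f b - σ⌋) b, ⟨hT _ b hb, ?_, ?_⟩, ?_⟩
    · rw [hf]; push_cast; linarith
    · rw [hf]; push_cast; linarith
    · have h3 : ⌊k (sh (-⌊f b - σ⌋) b) - τ⌋ = -⌊f b - σ⌋ := by
        rw [hk, show k b + ((-⌊f b - σ⌋ : ℤ) : ℝ) - τ = (k b - τ) + ((-⌊f b - σ⌋ : ℤ) : ℝ) by ring,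
          Int.floor_add_intCast, Int.floor_eq_zero_iff.2 ⟨by linarith, by linarith⟩, zero_add]
      show sh (-⌊k (sh (-⌊f b - σ⌋) b) - τ⌋) (sh (-⌊f b - σ⌋) b) = b
      rw [h3, hadd, neg_neg, add_neg_cancel, h0]

/-- the strip map -/
noncomputable def Gs (q : ℝ → ℂ) (x r : ℝ) : ℂ := GG q (mgc q) x (x + r)

theorem Gs_cont (L : Loop q) : Continuous fun p : ℝ × ℝ => Gs q p.1 p.2 :=
  (GG_cont L (mgc_sg L).cont).comp (f := fun p : ℝ × ℝ => ((p.1, p.1 + p.2) : ℝ × ℝ))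
    (by fun_prop)

theorem Gs_per (L : Loop q) (x r : ℝ) : Gs q (x + 1) r = Gs q x r := by
  unfold Gs
  rw [show x + 1 + r = (x + r) + 1 by ring, GG_per L]

theorem Gs_zero (L : Loop q) {x r : ℝ} (h0 : 0 < r) (h1 : r < 1) :
    Gs q x r = 0 ↔ (x, x + r) ∈ Zq q :=
  Zq_iff L (mgc_sg L) ⟨by simp only; linarith, by simp only; linarith⟩

theorem loop_int {f : ℝ → ℂ} (hf : Continuous f) {σ : ℝ} (h0 : ∀ t ∈ Icc σ (σ + 1), f t ≠ 0)
    (hp : f (σ + 1) = f σ) : ∃ n : ℤ, dl f σ (σ + 1) = n * (2 * Real.pi * I) := by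
  refine exp_eq_one_iff.1 ?_
  rw [dl_exp (by linarith) hf h0, hp, div_self (h0 σ ⟨le_rfl, by linarith⟩)]

/-- the loop of the chords of length `ρ` -/
theorem top (Lq : Loop q) (A : Ang c (mgc c) θ g) {ρ : ℝ} (hρ : 0 < ρ)
    (hρ2 : ρ ≤ 1 / 8) (hcl : ∀ x y, Kr ρ x y → ‖GG q (mgc q) x y - GG c (mgc c) x y‖ <
      ‖GG c (mgc c) x y‖) (σ : ℝ) :
    dl (fun x => Gs q x ρ) σ (σ + 1) = g * (2 * Real.pi * I) := by
  have hπ := Real.pi_pos
  have hK : ∀ x : ℝ, Kr ρ x (x + ρ) := fun x => ⟨by linarith, by linarith⟩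
  have hne : ∀ x, Gs q x ρ ≠ 0 := by
    intro x h
    have := hcl x (x + ρ) (hK x)
    unfold Gs at h
    rw [h, zero_sub, norm_neg] at this
    exact lt_irrefl _ this
  have hc : Continuous fun x => Gs q x ρ :=
    (Gs_cont Lq).comp (f := fun x : ℝ => ((x, ρ) : ℝ × ℝ)) (by fun_prop)
  obtain ⟨K, hKc, hKe⟩ := ex_log (f := fun x => Gs q x ρ) (a := σ) (b := σ + 1) (by linarith) hc
    (fun t _ => hne t)
  have hcos : ∀ x ∈ Icc σ (σ + 1), 0 < Real.cos ((K x).im - θ x (x + ρ)) := by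
    intro x hx
    obtain ⟨t, ht, e3, e4⟩ := A.ex x (x + ρ) (by linarith) (by linarith)
    have h := hcl x (x + ρ) (hK x)
    have e := hKe x hx
    have e1 : GG q (mgc q) x (x + ρ) = ((Real.exp (K x).re * Real.cos (K x).im : ℝ) : ℂ) +
        ((Real.exp (K x).re * Real.sin (K x).im : ℝ) : ℂ) * I := by
      rw [← exp_re, ← exp_im, re_add_im]
      exact e.symm
    have e2 : GG c (mgc c) x (x + ρ) = ((t * Real.cos (θ x (x + ρ)) : ℝ) : ℂ) +
        ((t * Real.sin (θ x (x + ρ)) : ℝ) : ℂ) * I := by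
      unfold GG; rw [e3, e4]
    rw [e1, e2] at h
    exact cos_close (Real.exp_pos _) ht h
  have hk : ContinuousOn (fun x => θ x (x + ρ)) (Icc σ (σ + 1)) := by
    refine A.cont.comp (f := fun x : ℝ => ((x, x + ρ) : ℝ × ℝ)) (by fun_prop) ?_
    intro x _
    exact ⟨by simp only; linarith, by simp only; linarith⟩
  obtain ⟨j, hj⟩ := cmp_ang (V := Icc σ (σ + 1)) isPreconnected_Icc
    (f := fun x => (K x).im) (k := fun x => θ x (x + ρ))
    (continuous_im.comp hKc).continuousOn hk hcos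
  obtain ⟨n, hn⟩ := loop_int hc (σ := σ) (fun t _ => hne t) (Gs_per Lq σ ρ)
  rw [hn]
  have hd := dl_eq (by linarith) hKc.continuousOn hKe
  rw [hn] at hd
  have him := congrArg Complex.im hd
  rw [sub_im, show (n : ℂ) * (2 * Real.pi * I) = (((n : ℝ) * (2 * Real.pi) : ℝ) : ℂ) * I by
    push_cast; ring, mul_I_im, ofReal_re] at him
  have hp := A.per σ (σ + ρ) (by linarith) (by linarith)
  rw [show σ + ρ + 1 = σ + 1 + ρ by ring] at hp
  have h1 := hj σ ⟨le_rfl, by linarith⟩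
  have h2 := hj (σ + 1) ⟨by linarith, le_rfl⟩
  rw [abs_lt] at h1 h2
  have h3 : n = g := by
    have a1 : ((n - g : ℤ) : ℝ) * Real.pi < 1 * Real.pi := by push_cast; linarith [h1.1, h2.2]
    have a2 : (-1) * Real.pi < ((n - g : ℤ) : ℝ) * Real.pi := by push_cast; linarith [h1.2, h2.1]
    have a3 : ((n - g : ℤ) : ℝ) < 1 := lt_of_mul_lt_mul_right a1 hπ.le
    have a4 : (-1 : ℝ) < ((n - g : ℤ) : ℝ) := lt_of_mul_lt_mul_right a2 hπ.le
    have a5 : n - g < 1 := by exact_mod_cast a3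
    have a6 : -1 < n - g := by exact_mod_cast a4
    omega
  rw [h3]

/-- the loop of the tiny chords -/
theorem bot (L : Loop q) (P : PLc q) {η : ℝ} (hη : 0 < η) (A : LA q η θ)
    (h0 : ∀ x y, x < y → y < x + η → GG q (mgc q) x y ≠ 0) (F : Finset ℝ)
    {σ : ℝ} (hF : ∀ s ∈ Icc σ (σ + 1), s ∈ F ↔ Ps q s) (hσ : ¬ Ps q σ) (hσ' : ¬ Ps q (σ + 1))
    {k0 k1 : ℤ} (h1 : KL θ σ k0) (h2 : KL θ (σ + 1) k1) : ∃ η0 > 0, ∀ r, 0 < r → r < η0 →
      ∃ n : ℤ, dl (fun x => Gs q x r) σ (σ + 1) = n * (2 * Real.pi * I) ∧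
        cnt F (σ + 1) = cnt F σ + -(2 * n) := by
  have ht := tiny L P hη A F hF (by linarith) hσ hσ' h1 h2
  obtain ⟨ρ1, hρ1, H1⟩ := h1
  obtain ⟨ρ2, hρ2, H2⟩ := h2
  refine ⟨min η (min ρ1 ρ2), by positivity, fun r hr hr2 => ?_⟩
  simp only [lt_min_iff] at hr2
  obtain ⟨r1, r2, r3⟩ := hr2
  have hc : Continuous fun x => Gs q x r :=
    (Gs_cont L).comp (f := fun x : ℝ => ((x, r) : ℝ × ℝ)) (by fun_prop)
  have hne : ∀ x, Gs q x r ≠ 0 := fun x => h0 x (x + r) (by linarith) (by linarith)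
  obtain ⟨n, hn⟩ := loop_int hc (σ := σ) (fun t _ => hne t) (Gs_per L σ r)
  refine ⟨n, hn, ?_⟩
  have him := dl_im (f := fun x => Gs q x r) (a := σ) (b := σ + 1) (by linarith) hc
    (fun t _ => hne t) (φ := fun x => θ x (x + r)) (by
      refine A.cont.comp (f := fun x : ℝ => ((x, x + r) : ℝ × ℝ)) (by fun_prop) ?_
      intro x _
      exact ⟨by simp only; linarith, by simp only; linarith⟩) (fun t _ => by
      obtain ⟨ρ, hρ, e1, e2⟩ := A.ex t (t + r) (by linarith) (by linarith)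
      refine ⟨ρ, hρ, ?_⟩
      unfold Gs GG
      rw [e1, e2])
  rw [hn, show (n : ℂ) * (2 * Real.pi * I) = (((n : ℝ) * (2 * Real.pi) : ℝ) : ℂ) * I by
    push_cast; ring, mul_I_im, ofReal_re] at him
  have hfl := Y535.PEG.fl_add (x := θ (σ + 1) (σ + 1 + r)) (y := θ σ (σ + r)) (m := n)
    (by linarith)
  rw [H1 σ (σ + r) (by simpa using hρ1) (by rw [add_sub_cancel_left, abs_of_pos hr]; exact r2)
    (by linarith), H2 (σ + 1) (σ + 1 + r) (by simpa using hρ2)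
    (by rw [add_sub_cancel_left, abs_of_pos hr]; exact r3) (by linarith)] at hfl
  linarith

end Pool.Agent.H687.K4
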