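import Pool.Graph.R_seed8.Y535.PEG.Poz

/-! The number of half turns of the tiny chords of a generic closed polygon drops by one at every
passage through a double point. -/

set_option autoImplicit false
open Complex Set Topology Metric

namespace Pool.Agent.H687.K4

open Pool.Agent.H763R2 Pool.Agent.H763R2.An Pool.Agent.Y535.PEG
open Pool.Agent.H763R2.Dm (NoSq floor_const)

variable {q : ℝ → ℂ} {θ : ℝ → ℝ → ℝ}

/-- the curve passes through the point `q s` at another parameter -/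
def Ps (q : ℝ → ℂ) (s : ℝ) : Prop := ∃ y, s < y ∧ y < s + 1 ∧ q s = q y

theorem Dbl.ps (L : Loop q) {s0 s1 η : ℝ} {e d : ℂ} (H : Dbl q s0 s1 e d η) : Ps q s0 := by
  by_cases h : ∃ n : ℤ, s1 = s0 + n
  · exfalso
    obtain ⟨n, rfl⟩ := h
    have h1 := H.l0 η (by rw [abs_of_pos H.hη])
    have h2 := H.l1 η (by rw [abs_of_pos H.hη])
    rw [show s0 + n + η = s0 + η + n by ring, L.per_int, L.per_int] at h2
    rw [h1] at h2
    have h3 := add_left_cancel h2
    have h4 : (η : ℂ) ≠ 0 := by exact_mod_cast H.hη.ne'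
    have h5 := mul_left_cancel₀ h4 h3
    exact H.tv (by rw [h5, An.cr_self])
  · push Not at h
    refine ⟨s0 + Int.fract (s1 - s0), ?_, ?_, ?_⟩
    · have : Int.fract (s1 - s0) ≠ 0 := by
        intro h0
        have h3 := Int.floor_add_fract (s1 - s0)
        rw [h0] at h3
        exact h ⌊s1 - s0⌋ (by linarith)
      have := lt_of_le_of_ne (Int.fract_nonneg (s1 - s0)) this.symm
      linarith
    · have := Int.fract_lt_one (s1 - s0)
      linarith
    · have h3 := Int.floor_add_fract (s1 - s0)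
      have h4 : s0 + Int.fract (s1 - s0) = s1 + ((-⌊s1 - s0⌋ : ℤ) : ℝ) := by
        push_cast; linarith
      rw [h4, L.per_int, H.eq]

theorem Cor.nps {s0 η : ℝ} {e f w : ℂ} (H : Cor q s0 e f w η) : ¬ Ps q s0 := by
  rintro ⟨y, h1, h2, h3⟩
  obtain ⟨n, rfl⟩ := H.fib y h3.symm
  have j1 : (0:ℝ) < n := by linarith
  have j2 : (n:ℝ) < 1 := by linarith
  have j1' : 0 < n := by exact_mod_cast j1
  have j2' : n < 1 := by exact_mod_cast j2
  omega

/-- number of elements below -/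
noncomputable def cnt (F : Finset ℝ) (s : ℝ) : ℤ := ((F.filter (fun p => p < s)).card : ℤ)

theorem cnt_loc (F : Finset ℝ) (s0 : ℝ) : ∃ ρ > 0, ∀ s, s ≠ s0 → |s - s0| < ρ → s ∉ F ∧
    (s < s0 → cnt F s = cnt F s0) ∧ (s0 < s → cnt F s = cnt F s0 + if s0 ∈ F then 1 else 0) := by
  obtain ⟨ρ, hρ, H⟩ : ∃ ρ > 0, ∀ p ∈ F, p ≠ s0 → ρ ≤ |p - s0| := by
    rcases (F.erase s0).eq_empty_or_nonempty with h | h
    · refine ⟨1, one_pos, fun p hp hne => ?_⟩
      have : p ∈ F.erase s0 := Finset.mem_erase.2 ⟨hne, hp⟩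
      rw [h] at this
      exact absurd this (Finset.notMem_empty p)
    · obtain ⟨p, hp, hmin⟩ := Finset.exists_min_image _ (fun p => |p - s0|) h
      refine ⟨|p - s0|, abs_pos.2 (sub_ne_zero.2 (Finset.mem_erase.1 hp).1), fun r hr hne =>
        hmin r (Finset.mem_erase.2 ⟨hne, hr⟩)⟩
  refine ⟨ρ, hρ, fun s hs hsρ => ⟨fun hF => ?_, fun hlt => ?_, fun hgt => ?_⟩⟩
  · linarith [H s hF hs]
  · unfold cnt
    congr 2
    refine Finset.filter_congr fun p hp => ?_
    constructor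
    · intro h; linarith
    · intro h
      have h1 := H p hp h.ne
      rw [abs_of_neg (by linarith)] at h1
      rw [abs_lt] at hsρ
      linarith
  · unfold cnt
    have key : F.filter (fun p => p < s) = F.filter (fun p => p < s0) ∪ F.filter (fun p => p = s0) := by
      ext p
      simp only [Finset.mem_filter, Finset.mem_union]
      constructor
      · rintro ⟨hp, h⟩
        rcases lt_trichotomy p s0 with h1 | h1 | h1
        · exact Or.inl ⟨hp, h1⟩
        · exact Or.inr ⟨hp, h1⟩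
        · have h2 := H p hp h1.ne'
          rw [abs_of_pos (by linarith)] at h2
          rw [abs_lt] at hsρ
          linarith
      · rintro (⟨hp, h⟩ | ⟨hp, h⟩)
        · exact ⟨hp, by linarith⟩
        · exact ⟨hp, by linarith⟩
    rw [key, Finset.card_union_of_disjoint, Finset.filter_eq']
    · split_ifs <;> simp
    · rw [Finset.disjoint_filter]
      intro p _ h1 h2
      linarith

/-- the number of half turns of the tiny chords -/
theorem tiny (L : Loop q) (P : PLc q) {η : ℝ} (hη : 0 < η) (A : LA q η θ) (F : Finset ℝ)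
    {a b : ℝ} (hF : ∀ s ∈ Icc a b, s ∈ F ↔ Ps q s) (hab : a ≤ b) (ha : ¬ Ps q a) (hb : ¬ Ps q b)
    {ka kb : ℤ} (h1 : KL θ a ka) (h2 : KL θ b kb) : ka + cnt F a = kb + cnt F b := by
  refine const_Icc (P := fun s m => s ∉ F ∧ KL θ s (m - cnt F s)) ?_ ?_ hab ?_
    ⟨fun h => ha ((hF a ⟨le_rfl, hab⟩).1 h), by rwa [add_sub_cancel_right]⟩
    ⟨fun h => hb ((hF b ⟨hab, le_rfl⟩).1 h), by rwa [add_sub_cancel_right]⟩
  · rintro s k k' ⟨-, h⟩ ⟨-, h'⟩
    have := h.uniq h'
    linarith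
  · rintro s k ⟨hs, h⟩
    obtain ⟨ρ, hρ, H⟩ := h.loc
    obtain ⟨ρ', hρ', H'⟩ := cnt_loc F s
    refine ⟨min ρ ρ', lt_min hρ hρ', fun s' hs' => ?_⟩
    have e1 := H s' (hs'.trans_le (min_le_left _ _))
    by_cases hne : s' = s
    · subst hne
      exact ⟨hs, e1⟩
    · obtain ⟨n1, n2, n3⟩ := H' s' hne (hs'.trans_le (min_le_right _ _))
      refine ⟨n1, ?_⟩
      rcases lt_or_gt_of_ne hne with h | h
      · rw [n2 h]; exact e1
      · rw [n3 h, if_neg hs, add_zero]; exact e1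
  · intro s0 hs0
    obtain ⟨ρ', hρ', H'⟩ := cnt_loc F s0
    rcases P s0 with ⟨e, f, w, η1, H⟩ | ⟨s1, e, d, η1, H⟩
    · have hn : s0 ∉ F := fun h => Cor.nps H ((hF s0 hs0).1 h)
      obtain ⟨ρ, hρ, k, hk⟩ := H.half L hη A
      refine ⟨k + cnt F s0, min ρ ρ', lt_min hρ hρ', fun s hs hsρ => ?_⟩
      obtain ⟨n1, n2, n3⟩ := H' s hs (hsρ.trans_le (min_le_right _ _))
      refine ⟨n1, ?_⟩
      have := hk s hs (hsρ.trans_le (min_le_left _ _))
      rcases lt_or_gt_of_ne hs with h | h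
      · rw [n2 h, add_sub_cancel_right]; exact this
      · rw [n3 h, if_neg hn, add_zero, add_sub_cancel_right]; exact this
    · have hn : s0 ∈ F := (hF s0 hs0).2 (Dbl.ps L H)
      obtain ⟨ρ, hρ, k, hk1, hk2⟩ := H.half L hη A
      refine ⟨k + 1 + cnt F s0, min ρ ρ', lt_min hρ hρ', fun s hs hsρ => ?_⟩
      obtain ⟨n1, n2, n3⟩ := H' s hs (hsρ.trans_le (min_le_right _ _))
      refine ⟨n1, ?_⟩
      rcases lt_or_gt_of_ne hs with h | h
      · rw [n2 h, add_sub_cancel_right]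
        exact hk1 s h (hsρ.trans_le (min_le_left _ _))
      · rw [n3 h, if_pos hn, show k + 1 + cnt F s0 - (cnt F s0 + 1) = k by ring]
        exact hk2 s h (hsρ.trans_le (min_le_left _ _))

end Pool.Agent.H687.K4
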