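import Pool.Agent.H687.K4.Count

/-! Zeros seen in a window of the parameter. -/

set_option autoImplicit false
open Complex Set Topology Metric

namespace Pool.Agent.H687.K4

open Pool.Agent.H763R2 Pool.Agent.H763R2.An Pool.Agent.Y535.PEG
open Pool.Agent.H763R2.Dm (NoSq floor_const)

variable {c q Q Q' : ℝ → ℂ}

/-- zeros seen in a window -/
def ZW (Q : ℝ → ℂ) (W : Set ℝ) : Set (ℝ × ℝ) := {z | z.1 ∈ W ∧ z.2 ∈ W ∧ z.1 ≠ z.2 ∧
  CC Q z.1 z.2 ∈ Q '' W ∧ DD Q z.1 z.2 ∈ Q '' W}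

/-- number of forward zeros in a window -/
noncomputable def Nw (Q : ℝ → ℂ) (W : Set ℝ) : ℕ := (ZW Q W ∩ {z | z.1 < z.2}).ncard

/-- number of backward zeros in a window -/
noncomputable def Nx (Q : ℝ → ℂ) (W : Set ℝ) : ℕ := (ZW Q W ∩ {z | z.2 < z.1}).ncard

theorem ZW_img {W : Set ℝ} {f : ℝ → ℝ} (hf : Function.Injective f)
    (h : ∀ t ∈ W, Q' (f t) = Q t) (x y : ℝ) : (f x, f y) ∈ ZW Q' (f '' W) ↔ (x, y) ∈ ZW Q W := by
  have himg : Q' '' (f '' W) = Q '' W := by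
    rw [Set.image_image]
    exact Set.image_congr h
  unfold ZW
  simp only [mem_ofPred_eq, himg, hf.mem_set_image, hf.ne_iff]
  constructor
  · rintro ⟨h1, h2, h3, h4, h5⟩
    refine ⟨h1, h2, h3, ?_, ?_⟩
    · unfold CC at h4 ⊢; rwa [h x h1, h y h2] at h4
    · unfold DD at h5 ⊢; rwa [h x h1, h y h2] at h5
  · rintro ⟨h1, h2, h3, h4, h5⟩
    refine ⟨h1, h2, h3, ?_, ?_⟩
    · unfold CC at h4 ⊢; rwa [h x h1, h y h2]
    · unfold DD at h5 ⊢; rwa [h x h1, h y h2]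

theorem Nw_mono {W : Set ℝ} {f : ℝ → ℝ} (hf : StrictMono f)
    (h : ∀ t ∈ W, Q' (f t) = Q t) : Nw Q' (f '' W) = Nw Q W := by
  refine (Set.ncard_congr (fun z _ => (f z.1, f z.2)) ?_ ?_ ?_).symm
  · rintro ⟨x, y⟩ ⟨h1, h2⟩
    exact ⟨(ZW_img hf.injective h x y).2 h1, hf h2⟩
  · rintro ⟨x, y⟩ ⟨x', y'⟩ _ _ he
    simp only [Prod.mk.injEq] at he
    exact Prod.ext (hf.injective he.1) (hf.injective he.2)
  · rintro ⟨x, y⟩ ⟨h1, h2⟩
    obtain ⟨a, ha, ha'⟩ := h1.1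
    obtain ⟨b, hb, hb'⟩ := h1.2.1
    simp only at ha' hb' h2
    subst ha' hb'
    exact ⟨(a, b), ⟨(ZW_img hf.injective h a b).1 h1, hf.lt_iff_lt.1 h2⟩, rfl⟩

theorem Nw_anti {W : Set ℝ} {f : ℝ → ℝ} (hf : StrictAnti f)
    (h : ∀ t ∈ W, Q' (f t) = Q t) : Nw Q' (f '' W) = Nx Q W := by
  refine (Set.ncard_congr (fun z _ => (f z.1, f z.2)) ?_ ?_ ?_).symm
  · rintro ⟨x, y⟩ ⟨h1, h2⟩
    exact ⟨(ZW_img hf.injective h x y).2 h1, hf h2⟩
  · rintro ⟨x, y⟩ ⟨x', y'⟩ _ _ he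
    simp only [Prod.mk.injEq] at he
    exact Prod.ext (hf.injective he.1) (hf.injective he.2)
  · rintro ⟨x, y⟩ ⟨h1, h2⟩
    obtain ⟨a, ha, ha'⟩ := h1.1
    obtain ⟨b, hb, hb'⟩ := h1.2.1
    simp only at ha' hb' h2
    subst ha' hb'
    exact ⟨(a, b), ⟨(ZW_img hf.injective h a b).1 h1, hf.lt_iff_gt.1 h2⟩, rfl⟩

theorem Nx_mono {W : Set ℝ} {f : ℝ → ℝ} (hf : StrictMono f)
    (h : ∀ t ∈ W, Q' (f t) = Q t) : Nx Q' (f '' W) = Nx Q W := by
  refine (Set.ncard_congr (fun z _ => (f z.1, f z.2)) ?_ ?_ ?_).symm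
  · rintro ⟨x, y⟩ ⟨h1, h2⟩
    exact ⟨(ZW_img hf.injective h x y).2 h1, hf h2⟩
  · rintro ⟨x, y⟩ ⟨x', y'⟩ _ _ he
    simp only [Prod.mk.injEq] at he
    exact Prod.ext (hf.injective he.1) (hf.injective he.2)
  · rintro ⟨x, y⟩ ⟨h1, h2⟩
    obtain ⟨a, ha, ha'⟩ := h1.1
    obtain ⟨b, hb, hb'⟩ := h1.2.1
    simp only at ha' hb' h2
    subst ha' hb'
    exact ⟨(a, b), ⟨(ZW_img hf.injective h a b).1 h1, hf.lt_iff_lt.1 h2⟩, rfl⟩

open Classical in
/-- a parameter in the window -/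
noncomputable def pw (Q : ℝ → ℂ) (W : Set ℝ) (z : ℂ) : ℝ := if h : z ∈ Q '' W then h.choose else 0

theorem pw_spec {W : Set ℝ} {z : ℂ} (h : z ∈ Q '' W) : pw Q W z ∈ W ∧ Q (pw Q W z) = z := by
  unfold pw
  rw [dif_pos h]
  exact h.choose_spec

theorem pw_eq {a b : ℝ} (hab : b < a + 1) {z : ℂ} (hs : Simple q z) {t : ℝ} (ht : t ∈ Icc a b)
    (e : q t = z) : pw q (Icc a b) z = t := by
  obtain ⟨h1, h2⟩ := pw_spec (Q := q) (W := Icc a b) (z := z) ⟨t, ht, e⟩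
  obtain ⟨t0, _, _, _, _, _, _, hf⟩ := hs
  obtain ⟨n, hn⟩ := hf _ h2
  obtain ⟨m, hm⟩ := hf t e
  have j1 : ((n - m : ℤ) : ℝ) < 1 := by push_cast; linarith [h1.2, ht.1]
  have j2 : (-1 : ℝ) < ((n - m : ℤ) : ℝ) := by push_cast; linarith [h1.1, ht.2]
  have j3 : n - m < 1 := by exact_mod_cast j1
  have j4 : -1 < n - m := by exact_mod_cast j2
  have : n = m := by omega
  rw [hn, hm, this]

theorem ZW_sq (hG : Gen q) {a b : ℝ} {z : ℝ × ℝ} (h : z ∈ ZW q (Icc a b)) (hne : q z.1 ≠ q z.2) :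
    Simple q (q z.1) ∧ Simple q (q z.2) ∧ Simple q (CC q z.1 z.2) ∧ Simple q (DD q z.1 z.2) :=
  hG.sq z.1 z.2 hne (Set.image_subset_range _ _ h.2.2.2.2) (Set.image_subset_range _ _ h.2.2.2.1)

theorem CC_opp {x y s t : ℝ} (h1 : q s = CC q x y) (h2 : q t = DD q x y) : CC q s t = q x := by
  unfold CC Sq.Cv; rw [h1, h2]; unfold CC DD Sq.Cv Sq.Dv
  ring

theorem DD_opp {x y s t : ℝ} (h1 : q s = CC q x y) (h2 : q t = DD q x y) : DD q s t = q y := by
  unfold DD Sq.Dv; rw [h1, h2]; unfold CC DD Sq.Cv Sq.Dv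
  ring

theorem ZW_fin (hG : Gen q) {a b : ℝ} (hab : b < a + 1) : (ZW q (Icc a b)).Finite := by
  have hR := hG.fin (|a| + |b|)
  have bd : ∀ x ∈ Icc a b, |x| ≤ |a| + |b| := by
    intro x hx
    rw [abs_le]
    have := neg_abs_le a
    have := le_abs_self b
    have := abs_nonneg a
    have := abs_nonneg b
    constructor <;> linarith [hx.1, hx.2]
  refine (hR.union (hR.image (fun z => (z.1, z.2 - 1)))).subset ?_
  rintro ⟨x, y⟩ ⟨hx, hy, hne, hC, hD⟩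
  simp only at hx hy hne hC hD
  rcases lt_or_gt_of_ne hne with h | h
  · left
    exact ⟨⟨⟨h, by simp only; linarith [hx.1, hy.2]⟩, Set.image_subset_range _ _ hD,
      Set.image_subset_range _ _ hC⟩, bd x hx⟩
  · right
    refine ⟨(x, y + 1), ⟨⟨⟨by simp only; linarith [hx.2, hy.1], by simp only; linarith⟩, ?_, ?_⟩,
      bd x hx⟩, by simp⟩
    · simp only
      have : DD q x (y + 1) = DD q x y := by unfold DD; rw [hG.L.per]
      rw [this]; exact Set.image_subset_range _ _ hD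
    · simp only
      have : CC q x (y + 1) = CC q x y := by unfold CC; rw [hG.L.per]
      rw [this]; exact Set.image_subset_range _ _ hC

open Classical in
/-- the involution of the zeros in a window -/
noncomputable def inv (q : ℝ → ℂ) (W : Set ℝ) (z : ℝ × ℝ) : ℝ × ℝ :=
  if q z.1 = q z.2 then (z.2, z.1) else (pw q W (CC q z.1 z.2), pw q W (DD q z.1 z.2))

theorem opp_ne {x y s t : ℝ} (hne : q x ≠ q y) (h1 : q s = CC q x y) (h2 : q t = DD q x y) :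
    q s ≠ q t := by
  intro h
  rw [h1, h2] at h
  unfold CC DD Sq.Cv Sq.Dv at h
  exact hne (by linear_combination -h)

theorem inv_mem {W : Set ℝ} {z : ℝ × ℝ} (h : z ∈ ZW q W) : inv q W z ∈ ZW q W := by
  obtain ⟨h1, h2, h3, h4, h5⟩ := h
  unfold inv
  by_cases he : q z.1 = q z.2
  · rw [if_pos he]
    have e1 : CC q z.2 z.1 = q z.1 := by unfold CC Sq.Cv; rw [he]; ring
    have e2 : DD q z.2 z.1 = q z.1 := by unfold DD Sq.Dv; rw [he]; ring
    refine ⟨h2, h1, h3.symm, ?_, ?_⟩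
    · simp only; rw [e1]; exact ⟨z.1, h1, rfl⟩
    · simp only; rw [e2]; exact ⟨z.1, h1, rfl⟩
  · rw [if_neg he]
    obtain ⟨c1, c2⟩ := pw_spec h4
    obtain ⟨d1, d2⟩ := pw_spec h5
    refine ⟨c1, d1, fun h => opp_ne he c2 d2 (congrArg q h), ?_, ?_⟩
    · simp only; rw [CC_opp c2 d2]; exact ⟨z.1, h1, rfl⟩
    · simp only; rw [DD_opp c2 d2]; exact ⟨z.2, h2, rfl⟩

theorem inv_inv (hG : Gen q) {a b : ℝ} (hab : b < a + 1) {z : ℝ × ℝ} (h : z ∈ ZW q (Icc a b)) :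
    inv q (Icc a b) (inv q (Icc a b) z) = z := by
  by_cases he : q z.1 = q z.2
  · have e1 : inv q (Icc a b) z = (z.2, z.1) := if_pos he
    rw [e1]
    unfold inv
    rw [if_pos he.symm]
  · have e1 : inv q (Icc a b) z = (pw q (Icc a b) (CC q z.1 z.2), pw q (Icc a b) (DD q z.1 z.2)) :=
      if_neg he
    obtain ⟨s1, s2, -, -⟩ := ZW_sq hG h he
    obtain ⟨h1, h2, h3, h4, h5⟩ := h
    obtain ⟨c1, c2⟩ := pw_spec h4
    obtain ⟨d1, d2⟩ := pw_spec h5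
    rw [e1]
    unfold inv
    rw [if_neg (opp_ne he c2 d2)]
    simp only
    rw [CC_opp c2 d2, DD_opp c2 d2, pw_eq hab s1 h1 rfl, pw_eq hab s2 h2 rfl]

theorem inv_ne {W : Set ℝ} {z : ℝ × ℝ} (h : z ∈ ZW q W) : inv q W z ≠ z := by
  obtain ⟨h1, h2, h3, h4, h5⟩ := h
  unfold inv
  by_cases he : q z.1 = q z.2
  · rw [if_pos he]
    intro h
    exact h3 (congrArg Prod.fst h).symm
  · rw [if_neg he]
    intro h
    obtain ⟨c1, c2⟩ := pw_spec h4
    have e1 : pw q W (CC q z.1 z.2) = z.1 := congrArg Prod.fst h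
    rw [e1] at c2
    unfold CC Sq.Cv at c2
    have e2 : (1 + I) * (q z.2 - q z.1) = 0 := by linear_combination -c2
    rcases mul_eq_zero.1 e2 with h' | h'
    · have := congrArg Complex.re h'
      simp at this
    · exact he (sub_eq_zero.1 h').symm

/-- forward and backward zeros have the same parity -/
theorem Nw_Nx (hG : Gen q) {a b : ℝ} (hab : b < a + 1) :
    ((Nw q (Icc a b) : ℕ) : ZMod 2) = ((Nx q (Icc a b) : ℕ) : ZMod 2) := by
  classical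
  have hfin := ZW_fin hG hab
  have h0 : ∑ z ∈ hfin.toFinset, (1 : ZMod 2) = 0 := by
    refine Finset.sum_involution (fun z _ => inv q (Icc a b) z) (fun _ _ => by decide)
      (fun z hz _ => inv_ne ((Set.Finite.mem_toFinset _).1 hz))
      (fun z hz => (Set.Finite.mem_toFinset _).2 (inv_mem ((Set.Finite.mem_toFinset _).1 hz)))
      (fun z hz => inv_inv hG hab ((Set.Finite.mem_toFinset _).1 hz))
  rw [Finset.sum_const, nsmul_eq_mul, mul_one] at h0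
  have h1 : (ZW q (Icc a b)).ncard = Nw q (Icc a b) + Nx q (Icc a b) := by
    unfold Nw Nx
    rw [← Set.ncard_union_eq (by
      rw [Set.disjoint_left]
      rintro z ⟨-, h⟩ ⟨-, h'⟩
      simp only [mem_ofPred_eq] at h h'
      linarith) (hfin.subset Set.inter_subset_left) (hfin.subset Set.inter_subset_left)]
    congr 1
    ext z
    constructor
    · intro h
      rcases lt_or_gt_of_ne h.2.2.1 with h' | h'
      · exact Or.inl ⟨h, h'⟩
      · exact Or.inr ⟨h, h'⟩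
    · rintro (h | h)
      · exact h.1
      · exact h.1
  rw [← Set.ncard_eq_toFinset_card _ hfin, h1] at h0
  push_cast at h0
  have h2 : ∀ a b : ZMod 2, a + b = 0 → a = b := by decide
  exact h2 _ _ h0

end Pool.Agent.H687.K4
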